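import Pool.Agent.H19.FE.Loc

/-!
# Row Crit (about 200 lines): vertex data give a smooth polytope

STATEMENT. If `D : VD P` then `IsSmooth P`.

PROOF. `P` is a lattice polytope by `D.hull`.
(a) `(interior P).Nonempty`: take `v ∈ D.Vt` (`D.ne`). The affine map
`g : (Fin d → ℝ) → (Fin d → ℝ)`, `g x = (i ↦ toR (U v i) ⬝ᵥ (x - toR v))` is continuous, the set
`O = {x | ∀ i, 0 < g x i ∧ ∑ i, g x i < 1}` is open and contained in `P`: for `x ∈ O`, by `D.span hv (x - toR v)`,
`x = toR v + ∑ i, g x i • toR (E v i) = (1 - ∑ i, g x i) • toR v + ∑ i, g x i • toR (v + E v i)`, a convex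
combination of points of `P` (`D.vmem`, `D.mem`, `D.convex`). `O` contains
`toR v + ∑ i, (1/(d+1)) • toR (E v i)` (`D.dual`). So `interior P` is nonempty (`interior_maximal`).
(b) Let `w ∈ P.extremePoints ℝ`. As `P = convexHull ℝ (toR '' D.Vt)`, `w = toR v` for some `v ∈ D.Vt`
(`extremePoints_convexHull_subset`). Basis `b` of `Fin d → ℤ` with `b i = E v i`: linear independence and
spanning follow from `D.dual` (e.g. `Module.Basis.ofEquivFun`, or `Module.Basis.mk`; the equivalence is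
`x ↦ (i ↦ U v i ⬝ᵥ x)` with inverse `c ↦ ∑ i, c i • E v i`; the identity
`x = ∑ i, (U v i ⬝ᵥ x) • E v i` for integer `x` follows from `D.span` by `toR_injective`).
(c) `Set.range (E v) ⊆ edgeVectors P (toR v)`: `e = E v i` is primitive: `U v i ⬝ᵥ E v i = 1`, and `E v i = m • f`
gives `m * (U v i ⬝ᵥ f) = 1`. The face `F = {x ∈ P | ∀ l, l ≠ i → toR (U v l) ⬝ᵥ (x - toR v) = 0}` is convex and
extreme (`D.cone hv l` gives `0 ≤ toR (U v l) ⬝ᵥ (x - toR v)` on `P`), contains `toR v` and
`toR (v + E v i) = toR v + (1:ℝ) • toR (E v i)`, and by `D.span` every `x ∈ F` is `toR v + r • toR (E v i)`, so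
`vectorSpan ℝ F = ℝ (toR (E v i))` has dimension one (see `Pool/Agent/H66/OD/EDG1.lean`, where the same is done:
`vectorSpan` is spanned by the differences; `finrank_span_singleton`).
(d) `edgeVectors P (toR v) ⊆ Set.range (E v)`: let `e` be primitive, `F` an edge, `toR v ∈ F`,
`y = toR v + t • toR e ∈ F`, `t > 0`. Put `c l = toR (U v l) ⬝ᵥ (t • toR e) ≥ 0` (`D.cone hv l` at `y ∈ P`);
`t • toR e = ∑ l, c l • toR (E v l)`. For `l` with `c l > 0`: `toR (v + E v l) ∈ F`. Indeed choose `δ ∈ (0, 1)` with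
`δ * ∑ c ≤ 1`; the point `toR v + δ • (y - toR v) ∈ F` (convexity of `F`) is the combination
`(1 - δ ∑ c) • toR v + ∑ l, δ c l • toR (v + E v l)` of points of `P`; use extremeness
(`H66OD.EDG2_ext` in `Pool/Agent/H66/OD/EDG2.lean` is a lemma of this kind; or directly: it lies in the open
segment between `toR (v + E v l)` and another point of `P`).
If two different indices `l, m` had `c l, c m > 0` then `toR (E v l)` and `toR (E v m)` would both be in
`vectorSpan ℝ F`, which has dimension one, but they are linearly independent (`D.dual`). At least one `c l > 0`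
since `e ≠ 0`, `t > 0`. So `t • toR e = c l • toR (E v l)`, hence `e = (U v l ⬝ᵥ e) • E v l` (use `D.span hv (toR e)`),
by primitivity `U v l ⬝ᵥ e = 1` or `-1`, and it is positive, so `e = E v l`.
-/

set_option autoImplicit false
set_option linter.all false

namespace Pool.Agent.H19.FE

open H66OD Matrix

variable {d : ℕ} {P : Set (Fin d → ℝ)}

theorem Crit_rdual (D : VD P) {v : Fin d → ℤ} (hv : v ∈ D.Vt) (i j : Fin d) :
    toR (D.U v i) ⬝ᵥ toR (D.E v j) = if i = j then 1 else 0 := by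
  rw [toR_dot, D.dual v hv]
  split_ifs <;> simp

theorem Crit_dot_sum (D : VD P) {v : Fin d → ℤ} (hv : v ∈ D.Vt) (i : Fin d) (c : Fin d → ℝ) :
    toR (D.U v i) ⬝ᵥ (∑ j, c j • toR (D.E v j)) = c i := by
  rw [dotProduct_sum]
  rw [Finset.sum_eq_single i]
  · rw [dotProduct_smul, Crit_rdual D hv, if_pos rfl, smul_eq_mul, mul_one]
  · intro j _ hj
    rw [dotProduct_smul, Crit_rdual D hv, if_neg (Ne.symm hj), smul_eq_mul, mul_zero]
  · intro h
    exact absurd (Finset.mem_univ i) h

theorem Crit_comb (D : VD P) {v : Fin d → ℤ} (hv : v ∈ D.Vt) (c : Fin d → ℝ)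
    (hc : ∀ i, 0 ≤ c i) (hs : ∑ i, c i ≤ 1) : toR v + ∑ i, c i • toR (D.E v i) ∈ P := by
  have h1 : toR v + ∑ i, c i • toR (D.E v i) =
      ∑ o : Option (Fin d), (o.elim (1 - ∑ i, c i) c) • (o.elim (toR v) (fun i => toR (v + D.E v i))) := by
    rw [Fintype.sum_option]
    simp only [Option.elim_none, Option.elim_some, toR_add, smul_add, Finset.sum_add_distrib]
    rw [← Finset.sum_smul, sub_smul, one_smul]
    abel
  rw [h1]
  refine D.convex.sum_mem ?_ ?_ ?_
  · rintro (_ | i) _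
    · simp only [Option.elim_none]
      linarith
    · exact hc i
  · rw [Fintype.sum_option]
    simp
  · rintro (_ | i) _
    · exact D.vmem hv
    · exact D.mem v hv i

theorem Crit_decomp (D : VD P) {v : Fin d → ℤ} (hv : v ∈ D.Vt) (x : Fin d → ℝ) :
    x = toR v + ∑ i, (toR (D.U v i) ⬝ᵥ (x - toR v)) • toR (D.E v i) := by
  have h := D.span hv (x - toR v)
  rw [← h]
  abel

theorem Crit_interior (D : VD P) : (interior P).Nonempty := by
  obtain ⟨v, hv⟩ := D.ne
  let O : Set (Fin d → ℝ) := {x | (∀ i, 0 < toR (D.U v i) ⬝ᵥ (x - toR v)) ∧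
    ∑ i, toR (D.U v i) ⬝ᵥ (x - toR v) < 1}
  have hcont : ∀ i, Continuous fun x : Fin d → ℝ => toR (D.U v i) ⬝ᵥ (x - toR v) := by
    intro i
    simp only [dotProduct]
    fun_prop
  have hO : IsOpen O := by
    have h1 : O = (⋂ i, {x | 0 < toR (D.U v i) ⬝ᵥ (x - toR v)}) ∩
        {x | ∑ i, toR (D.U v i) ⬝ᵥ (x - toR v) < 1} := by
      ext x
      simp [O]
    rw [h1]
    refine IsOpen.inter (isOpen_iInter_of_finite fun i => ?_) ?_
    · exact isOpen_lt continuous_const (hcont i)
    · exact isOpen_lt (continuous_finset_sum _ fun i _ => hcont i) continuous_const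
  have hOP : O ⊆ P := by
    rintro x ⟨h1, h2⟩
    rw [Crit_decomp D hv x]
    exact Crit_comb D hv _ (fun i => (h1 i).le) h2.le
  refine ⟨toR v + ∑ i, (1 / ((d : ℝ) + 1)) • toR (D.E v i), interior_maximal hOP hO ?_⟩
  have hd : (0 : ℝ) < (d : ℝ) + 1 := by positivity
  have hg : ∀ i, toR (D.U v i) ⬝ᵥ (toR v + ∑ j, (1 / ((d : ℝ) + 1)) • toR (D.E v j) - toR v) =
      1 / ((d : ℝ) + 1) := by
    intro i
    rw [add_sub_cancel_left]
    exact Crit_dot_sum D hv i (fun _ => 1 / ((d : ℝ) + 1))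
  refine ⟨fun i => ?_, ?_⟩
  · rw [hg i]
    positivity
  · simp only [hg]
    rw [Finset.sum_const, Finset.card_univ, Fintype.card_fin, nsmul_eq_mul, mul_one_div,
      div_lt_one hd]
    linarith

theorem Crit_zspan (D : VD P) {v : Fin d → ℤ} (hv : v ∈ D.Vt) (x : Fin d → ℤ) :
    x = ∑ i, (D.U v i ⬝ᵥ x) • D.E v i := by
  apply toR_injective
  rw [toR_sum]
  conv_lhs => rw [D.span hv (toR x)]
  refine Finset.sum_congr rfl fun i _ => ?_
  rw [toR_zsmul, toR_dot]

theorem Crit_zdot (D : VD P) {v : Fin d → ℤ} (hv : v ∈ D.Vt) (i : Fin d) (c : Fin d → ℤ) :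
    D.U v i ⬝ᵥ (∑ j, c j • D.E v j) = c i := by
  rw [dotProduct_sum]
  rw [Finset.sum_eq_single i]
  · rw [dotProduct_smul, D.dual v hv, if_pos rfl, smul_eq_mul, mul_one]
  · intro j _ hj
    rw [dotProduct_smul, D.dual v hv, if_neg (Ne.symm hj), smul_eq_mul, mul_zero]
  · intro h
    exact absurd (Finset.mem_univ i) h

theorem Crit_basis (D : VD P) {v : Fin d → ℤ} (hv : v ∈ D.Vt) :
    ∃ b : Module.Basis (Fin d) ℤ (Fin d → ℤ), ∀ i, b i = D.E v i := by
  let e : (Fin d → ℤ) ≃ₗ[ℤ] (Fin d → ℤ) :=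
    { toFun := fun x i => D.U v i ⬝ᵥ x
      map_add' := by
        intro x y
        funext i
        simp [dotProduct_add]
      map_smul' := by
        intro c x
        funext i
        exact dotProduct_smul c (D.U v i) x
      invFun := fun c => ∑ j, c j • D.E v j
      left_inv := fun x => (Crit_zspan D hv x).symm
      right_inv := by
        intro c
        funext i
        exact Crit_zdot D hv i c }
  refine ⟨Module.Basis.ofEquivFun e, fun i => ?_⟩
  rw [Module.Basis.coe_ofEquivFun]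
  change ∑ j, (Pi.single i (1 : ℤ) : Fin d → ℤ) j • D.E v j = D.E v i
  rw [Finset.sum_eq_single i]
  · rw [Pi.single_eq_same, one_smul]
  · intro j _ hj
    rw [Pi.single_eq_of_ne hj, zero_smul]
  · intro h
    exact absurd (Finset.mem_univ i) h

theorem Crit_prim (D : VD P) {v : Fin d → ℤ} (hv : v ∈ D.Vt) (i : Fin d) :
    IsPrimitive (D.E v i) := by
  have h1 : D.U v i ⬝ᵥ D.E v i = 1 := by rw [D.dual v hv, if_pos rfl]
  refine ⟨?_, ?_⟩
  · intro h
    rw [h, dotProduct_zero] at h1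
    exact zero_ne_one h1
  · intro m f h
    rw [h, dotProduct_smul, smul_eq_mul] at h1
    exact Int.isUnit_iff.1 (IsUnit.of_mul_eq_one _ h1)

theorem Crit_edge (D : VD P) {v : Fin d → ℤ} (hv : v ∈ D.Vt) (i : Fin d) :
    D.E v i ∈ edgeVectors P (toR v) := by
  have hE0 : toR (D.E v i) ≠ 0 := by
    intro h
    apply (Crit_prim D hv i).1
    apply toR_injective
    rw [h, toR_zero]
  let F : Set (Fin d → ℝ) := {x | x ∈ P ∧ ∀ l, l ≠ i → toR (D.U v l) ⬝ᵥ (x - toR v) = 0}
  have hvF : toR v ∈ F := ⟨D.vmem hv, fun l _ => by rw [sub_self, dotProduct_zero]⟩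
  have hwF : toR (v + D.E v i) ∈ F := by
    refine ⟨D.mem v hv i, fun l hl => ?_⟩
    rw [toR_add, add_sub_cancel_left, Crit_rdual D hv, if_neg hl]
  have hrep : ∀ x ∈ F, ∃ r : ℝ, x = toR v + r • toR (D.E v i) := by
    rintro x ⟨_, hx⟩
    refine ⟨toR (D.U v i) ⬝ᵥ (x - toR v), ?_⟩
    conv_lhs => rw [Crit_decomp D hv x]
    congr 1
    rw [Finset.sum_eq_single i]
    · intro l _ hl
      rw [hx l hl, zero_smul]
    · intro h
      exact absurd (Finset.mem_univ i) h
  refine ⟨Crit_prim D hv i, F, ⟨?_, ⟨fun x hx => hx.1, ?_⟩, ?_⟩, hvF, 1, one_pos, ?_⟩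
  · rintro x ⟨hx, hx'⟩ y ⟨hy, hy'⟩ a b ha hb hab
    refine ⟨D.convex hx hy ha hb hab, fun l hl => ?_⟩
    have e1 : a • x + b • y - toR v = a • (x - toR v) + b • (y - toR v) := by
      have e2 : toR v = a • toR v + b • toR v := by rw [← add_smul, hab, one_smul]
      conv_lhs => rw [e2]
      rw [smul_sub, smul_sub]
      abel
    rw [e1, dotProduct_add, dotProduct_smul, dotProduct_smul, hx' l hl, hy' l hl]
    simp
  · rintro x hx y hy z ⟨_, hz⟩ ⟨a, b, ha, hb, hab, rfl⟩
    refine ⟨hx, fun l hl => ?_⟩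
    have h1 := D.cone hv l hx
    have h2 := D.cone hv l hy
    have h3 := hz l hl
    have e1 : a • x + b • y - toR v = a • (x - toR v) + b • (y - toR v) := by
      have e2 : toR v = a • toR v + b • toR v := by rw [← add_smul, hab, one_smul]
      conv_lhs => rw [e2]
      rw [smul_sub, smul_sub]
      abel
    rw [e1, dotProduct_add, dotProduct_smul, dotProduct_smul, smul_eq_mul, smul_eq_mul] at h3
    have h4 := mul_nonneg ha.le h1
    have h5 := mul_nonneg hb.le h2
    have h6 : a * (toR (D.U v l) ⬝ᵥ (x - toR v)) = 0 := by linarith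
    exact (mul_eq_zero.1 h6).resolve_left ha.ne'
  · have hspan : vectorSpan ℝ F = Submodule.span ℝ {toR (D.E v i)} := by
      apply le_antisymm
      · rw [vectorSpan_def, Submodule.span_le]
        rintro _ ⟨y, hy, z, hz, rfl⟩
        obtain ⟨r, rfl⟩ := hrep y hy
        obtain ⟨r', rfl⟩ := hrep z hz
        rw [SetLike.mem_coe, Submodule.mem_span_singleton]
        refine ⟨r - r', ?_⟩
        simp only [vsub_eq_sub, sub_smul]
        abel
      · rw [Submodule.span_singleton_le_iff_mem]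
        have h13 := vsub_mem_vectorSpan ℝ hwF hvF
        rw [vsub_eq_sub, toR_add, add_sub_cancel_left] at h13
        exact h13
    rw [hspan]
    exact finrank_span_singleton hE0
  · rw [one_smul, ← toR_add]
    exact hwF

theorem Crit_edge' (D : VD P) {v : Fin d → ℤ} (hv : v ∈ D.Vt) {e : Fin d → ℤ}
    (he : e ∈ edgeVectors P (toR v)) : ∃ l, D.E v l = e := by
  classical
  obtain ⟨hprim, F, ⟨hFc, hFe, hFd⟩, hvF, t, ht, hyF⟩ := he
  have hyP : toR v + t • toR e ∈ P := hFe.subset hyF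
  obtain ⟨c, hc⟩ : ∃ c : Fin d → ℝ, c = fun l => toR (D.U v l) ⬝ᵥ (t • toR e) := ⟨_, rfl⟩
  have hc0 : ∀ l, 0 ≤ c l := by
    intro l
    have := D.cone hv l hyP
    rw [add_sub_cancel_left] at this
    rw [hc]
    exact this
  have hte : t • toR e = ∑ l, c l • toR (D.E v l) := by
    rw [hc]
    exact D.span hv (t • toR e)
  have he0 : toR e ≠ 0 := by
    intro h
    apply hprim.1
    apply toR_injective
    rw [h, toR_zero]
  obtain ⟨l, hl⟩ : ∃ l, 0 < c l := by
    by_contra hcon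
    push Not at hcon
    have h1 : t • toR e = 0 := by
      rw [hte]
      refine Finset.sum_eq_zero fun l _ => ?_
      rw [le_antisymm (hcon l) (hc0 l), zero_smul]
    exact (smul_ne_zero ht.ne' he0) h1
  obtain ⟨S, hS⟩ : ∃ S : ℝ, S = ∑ m, c m := ⟨_, rfl⟩
  have hlS : c l ≤ S := by
    rw [hS]
    exact Finset.single_le_sum (fun m _ => hc0 m) (Finset.mem_univ l)
  have hSpos : 0 < S := lt_of_lt_of_le hl hlS
  obtain ⟨δ, hδ⟩ : ∃ δ : ℝ, δ = 1 / (1 + S) := ⟨_, rfl⟩
  have hδ0 : 0 < δ := by rw [hδ]; positivity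
  have hδ1 : δ < 1 := by
    rw [hδ, div_lt_one (by positivity)]
    linarith
  have hδS : δ * S < 1 := by
    rw [hδ, one_div, inv_mul_lt_iff₀ (by positivity)]
    linarith
  have hlam0 : 0 < δ * c l := mul_pos hδ0 hl
  have hlam1 : δ * c l < 1 := lt_of_le_of_lt (mul_le_mul_of_nonneg_left hlS hδ0.le) hδS
  have hzF : (1 - δ) • toR v + δ • (toR v + t • toR e) ∈ F :=
    hFc hvF hyF (by linarith) hδ0.le (by ring)
  obtain ⟨c', hc'⟩ : ∃ c' : Fin d → ℝ, c' = fun m => if m = l then 0 else δ * c m / (1 - δ * c l) :=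
    ⟨_, rfl⟩
  have hsub : (0 : ℝ) < 1 - δ * c l := by linarith
  have hc'0 : ∀ m, 0 ≤ c' m := by
    intro m
    rw [hc']
    by_cases h : m = l
    · simp only [if_pos h]; exact le_rfl
    · simp only [if_neg h]
      exact div_nonneg (mul_nonneg hδ0.le (hc0 m)) hsub.le
  have hsum' : ∀ f : Fin d → (Fin d → ℝ), (1 - δ * c l) • ∑ m, c' m • f m =
      ∑ m, (δ * c m) • f m - (δ * c l) • f l := by
    intro f
    rw [← Finset.add_sum_erase Finset.univ (fun m => (δ * c m) • f m) (Finset.mem_univ l),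
      add_sub_cancel_left, ← Finset.add_sum_erase Finset.univ (fun m => c' m • f m)
        (Finset.mem_univ l)]
    have h1 : c' l = 0 := by rw [hc']; simp
    rw [h1, zero_smul, zero_add, Finset.smul_sum]
    refine Finset.sum_congr rfl fun m hm => ?_
    have h2 : c' m = δ * c m / (1 - δ * c l) := by
      rw [hc']
      simp only [if_neg (Finset.ne_of_mem_erase hm)]
    rw [h2, smul_smul, mul_div_cancel₀ _ hsub.ne']
  have hc's : ∑ m, c' m ≤ 1 := by
    have h1 : (1 - δ * c l) * ∑ m, c' m = δ * S - δ * c l := by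
      rw [← Finset.add_sum_erase Finset.univ c' (Finset.mem_univ l)]
      have h1 : c' l = 0 := by rw [hc']; simp
      rw [h1, zero_add, hS, ← Finset.add_sum_erase Finset.univ c (Finset.mem_univ l), mul_add,
        add_sub_cancel_left, Finset.mul_sum, Finset.mul_sum]
      refine Finset.sum_congr rfl fun m hm => ?_
      have h2 : c' m = δ * c m / (1 - δ * c l) := by
        rw [hc']
        simp only [if_neg (Finset.ne_of_mem_erase hm)]
      rw [h2, mul_div_cancel₀ _ hsub.ne']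
    by_contra hcon
    push Not at hcon
    have h2 : (1 - δ * c l) * 1 < (1 - δ * c l) * ∑ m, c' m := mul_lt_mul_of_pos_left hcon hsub
    linarith
  have hz'P := Crit_comb D hv c' hc'0 hc's
  have hlF : toR (v + D.E v l) ∈ F := by
    refine hFe.left_mem_of_mem_openSegment (D.mem v hv l) hz'P hzF ?_
    refine ⟨δ * c l, 1 - δ * c l, hlam0, hsub, by ring, ?_⟩
    rw [smul_add (1 - δ * c l), hsum', toR_add, hte]
    have h3 : ∑ m, (δ * c m) • toR (D.E v m) = δ • ∑ m, c m • toR (D.E v m) := by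
      rw [Finset.smul_sum]
      refine Finset.sum_congr rfl fun m _ => ?_
      rw [smul_smul]
    rw [h3]
    simp only [smul_add, sub_smul, one_smul]
    abel
  -- the direction space is spanned by `toR (E l)`
  obtain ⟨r, hr⟩ : ∃ r : ℝ, r • toR (D.E v l) = t • toR e := by
    have h1 : toR (D.E v l) ∈ vectorSpan ℝ F := by
      have h2 := vsub_mem_vectorSpan ℝ hlF hvF
      rwa [vsub_eq_sub, toR_add, add_sub_cancel_left] at h2
    have h2 : t • toR e ∈ vectorSpan ℝ F := by
      have h2 := vsub_mem_vectorSpan ℝ hyF hvF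
      rwa [vsub_eq_sub, add_sub_cancel_left] at h2
    have hE0 : toR (D.E v l) ≠ 0 := by
      intro h
      apply (Crit_prim D hv l).1
      apply toR_injective
      rw [h, toR_zero]
    have hne : (⟨toR (D.E v l), h1⟩ : vectorSpan ℝ F) ≠ 0 := by
      intro h0
      exact hE0 (congrArg Subtype.val h0)
    obtain ⟨r, hr⟩ := (finrank_eq_one_iff_of_nonzero' _ hne).1 hFd ⟨t • toR e, h2⟩
    exact ⟨r, congrArg Subtype.val hr⟩
  have hz : ∀ m, m ≠ l → D.U v m ⬝ᵥ e = 0 := by
    intro m hm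
    have h1 : toR (D.U v m) ⬝ᵥ (t • toR e) = 0 := by
      rw [← hr, dotProduct_smul, Crit_rdual D hv, if_neg hm, smul_zero]
    rw [dotProduct_smul, toR_dot, smul_eq_mul] at h1
    have h2 := (mul_eq_zero.1 h1).resolve_left ht.ne'
    exact_mod_cast h2
  have hel : e = (D.U v l ⬝ᵥ e) • D.E v l := by
    conv_lhs => rw [Crit_zspan D hv e]
    rw [Finset.sum_eq_single l]
    · intro m _ hm
      rw [hz m hm, zero_smul]
    · intro h
      exact absurd (Finset.mem_univ l) h
  have hpos : 0 < D.U v l ⬝ᵥ e := by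
    have h1 : 0 < toR (D.U v l) ⬝ᵥ (t • toR e) := by
      have := hl
      rw [hc] at this
      exact this
    rw [dotProduct_smul, toR_dot, smul_eq_mul] at h1
    have h2 := (mul_pos_iff_of_pos_left ht).1 h1
    exact_mod_cast h2
  refine ⟨l, ?_⟩
  rcases hprim.2 _ _ hel with h | h
  · rw [hel, h, one_smul]
  · omega

theorem smooth_of_VD (D : VD P) : IsSmooth P := by
  refine ⟨⟨D.Vt, D.hull⟩, Crit_interior D, ?_⟩
  intro w hw
  obtain ⟨v, hv, rfl⟩ : ∃ v ∈ D.Vt, toR v = w := by
    have h1 : w ∈ (convexHull ℝ (toR '' (D.Vt : Set (Fin d → ℤ)))).extremePoints ℝ := by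
      rw [← D.hull]
      exact hw
    obtain ⟨v, hv, h⟩ := extremePoints_convexHull_subset h1
    exact ⟨v, hv, h⟩
  obtain ⟨b, hb⟩ := Crit_basis D hv
  refine ⟨b, Set.Subset.antisymm ?_ ?_⟩
  · rintro _ ⟨i, rfl⟩
    rw [hb i]
    exact Crit_edge D hv i
  · intro e he
    obtain ⟨l, hl⟩ := Crit_edge' D hv he
    exact ⟨l, by rw [hb l, hl]⟩

end Pool.Agent.H19.FE
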