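import Pool.Agent.H19.P4.PolA

/-!
# Smooth Fano polytopes and Oda's question: definitions

`DualPolytope A`: all inequalities `a · x ≤ 1`, `a ∈ A`.
`OddSplit A`: an odd integral linear form on `A` can be replaced by one with values `1`, `-1`.
`AtMost m P`: `P` is an intersection of `m` closed half-spaces.
`Sum2 P`: every integer point of `2 P` is a sum of two integer points of `P`.
`VD P`: vertex data of a smooth polytope together with its facet inequalities.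
-/

set_option autoImplicit false
set_option linter.all false

namespace Pool.Agent.H19.FE

open H66OD Matrix

/-- The dual polytope of `A`: the set of solutions of the inequalities `a · x ≤ 1`, `a ∈ A`. -/
def DualPolytope {d : ℕ} (A : Finset (Fin d → ℤ)) : Set (Fin d → ℝ) :=
  {x | ∀ a ∈ A, toR a ⬝ᵥ x ≤ 1}

/-- If some integral linear form takes only odd values on `A`, then some integral linear form takes only the
values `1` and `-1` on `A`. -/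
def OddSplit {d : ℕ} (A : Finset (Fin d → ℤ)) : Prop :=
  (∃ c : Fin d → ℤ, ∀ a ∈ A, Odd (a ⬝ᵥ c)) → ∃ q : Fin d → ℤ, ∀ a ∈ A, a ⬝ᵥ q = 1 ∨ a ⬝ᵥ q = -1

/-- `P` is an intersection of `m` closed half-spaces. -/
def AtMost {d : ℕ} (m : ℕ) (P : Set (Fin d → ℝ)) : Prop :=
  ∃ (n : Fin m → (Fin d → ℝ)) (b : Fin m → ℝ), P = {x | ∀ i, n i ⬝ᵥ x ≤ b i}

/-- Every integer point of `2 P` is a sum of two integer points of `P`. -/
def Sum2 {d : ℕ} (P : Set (Fin d → ℝ)) : Prop :=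
  ∀ x : Fin d → ℤ, (∃ y ∈ P, toR x = (2 : ℝ) • y) →
    ∃ p q : Fin d → ℤ, toR p ∈ P ∧ toR q ∈ P ∧ x = p + q

/-- vertex data of a smooth polytope, with the facet inequalities `0 ≤ a.1 · x + a.2`, `a ∈ A` -/
structure VD {d : ℕ} (P : Set (Fin d → ℝ)) where
  Vt : Finset (Fin d → ℤ)
  ne : Vt.Nonempty
  hull : P = convexHull ℝ (toR '' (Vt : Set (Fin d → ℤ)))
  E : (Fin d → ℤ) → Fin d → (Fin d → ℤ)
  U : (Fin d → ℤ) → Fin d → (Fin d → ℤ)
  dual : ∀ v ∈ Vt, ∀ i j, U v i ⬝ᵥ E v j = if i = j then 1 else 0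
  mem : ∀ v ∈ Vt, ∀ i, toR (v + E v i) ∈ P
  A : Finset ((Fin d → ℤ) × ℤ)
  hrep : ∀ x : Fin d → ℝ, x ∈ P ↔ ∀ a ∈ A, 0 ≤ toR a.1 ⬝ᵥ x + (a.2 : ℝ)
  uA : ∀ v ∈ Vt, ∀ i, (U v i, -(U v i ⬝ᵥ v)) ∈ A
  tight : ∀ v ∈ Vt, ∀ a ∈ A, a.1 ⬝ᵥ v + a.2 = 0 → ∃ i, U v i = a.1
  nz : ∀ a ∈ A, a.1 ≠ 0

variable {d : ℕ} {P : Set (Fin d → ℝ)}

theorem span_of_dual {U E : Fin d → (Fin d → ℤ)}
    (h : ∀ i j, U i ⬝ᵥ E j = if i = j then 1 else 0) (x : Fin d → ℝ) :
    x = ∑ i, (toR (U i) ⬝ᵥ x) • toR (E i) := by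
  classical
  have h1 : (Matrix.of fun i => toR (U i)) * (Matrix.of fun i => toR (E i))ᵀ = 1 := by
    ext i j
    rw [Matrix.mul_apply, Matrix.one_apply]
    have h2 := h i j
    have h3 : toR (U i) ⬝ᵥ toR (E j) = ((U i ⬝ᵥ E j : ℤ) : ℝ) := toR_dot _ _
    rw [h2] at h3
    simp only [dotProduct] at h3
    simp only [Matrix.of_apply, Matrix.transpose_apply]
    rw [h3]
    split_ifs <;> simp
  have h2 := mul_eq_one_comm.1 h1
  have h3 : ((Matrix.of fun i => toR (E i))ᵀ * (Matrix.of fun i => toR (U i))) *ᵥ x = x := by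
    rw [h2, Matrix.one_mulVec]
  rw [← Matrix.mulVec_mulVec] at h3
  conv_lhs => rw [← h3]
  ext k
  rw [Finset.sum_apply]
  simp only [Matrix.mulVec, dotProduct, Matrix.transpose_apply, Matrix.of_apply, Pi.smul_apply,
    smul_eq_mul]
  refine Finset.sum_congr rfl fun i _ => ?_
  rw [mul_comm]

namespace VD

theorem vmem (D : VD P) {v : Fin d → ℤ} (hv : v ∈ D.Vt) : toR v ∈ P := by
  rw [D.hull]
  exact subset_convexHull ℝ _ ⟨v, hv, rfl⟩

theorem convex (D : VD P) : Convex ℝ P := by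
  rw [D.hull]
  exact convex_convexHull ℝ _

theorem cone (D : VD P) {v : Fin d → ℤ} (hv : v ∈ D.Vt) (i : Fin d) {x : Fin d → ℝ} (hx : x ∈ P) :
    0 ≤ toR (D.U v i) ⬝ᵥ (x - toR v) := by
  have h1 := (D.hrep x).1 hx _ (D.uA v hv i)
  rw [dotProduct_sub, toR_dot]
  push_cast at h1
  linarith

theorem span (D : VD P) {v : Fin d → ℤ} (hv : v ∈ D.Vt) (x : Fin d → ℝ) :
    x = ∑ i, (toR (D.U v i) ⬝ᵥ x) • toR (D.E v i) := span_of_dual (D.dual v hv) x

theorem nn (D : VD P) {a : (Fin d → ℤ) × ℤ} (ha : a ∈ D.A) {v : Fin d → ℤ} (hv : toR v ∈ P) :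
    0 ≤ a.1 ⬝ᵥ v + a.2 := by
  have h1 := (D.hrep _).1 hv a ha
  rw [toR_dot] at h1
  exact_mod_cast h1

end VD

end Pool.Agent.H19.FE
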