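import Pool.Agent.H19.FE.Td

/-!
# Facets of smooth polytopes in coordinates
-/

set_option autoImplicit false
set_option linter.all false

namespace Pool.Agent.H19.FE

open H66OD Matrix

/-- `x` is the sum of two integer points of `P` -/
def Dec {d : ℕ} (P : Set (Fin d → ℝ)) (x : Fin d → ℤ) : Prop :=
  ∃ p q : Fin d → ℤ, toR p ∈ P ∧ toR q ∈ P ∧ x = p + q

namespace VD

variable {d : ℕ} {P : Set (Fin d → ℝ)}

theorem spanZ (D : VD P) {v : Fin d → ℤ} (hv : v ∈ D.Vt) (x : Fin d → ℤ) :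
    x = ∑ i, (D.U v i ⬝ᵥ x) • D.E v i := by
  apply toR_injective
  rw [toR_sum]
  conv_lhs => rw [D.span hv (toR x)]
  refine Finset.sum_congr rfl fun i _ => ?_
  rw [toR_zsmul, toR_dot]

/-- a point of the hull of the vertices -/
theorem combo (D : VD P) {x : Fin d → ℝ} (hx : x ∈ P) :
    ∃ c : (Fin d → ℤ) → ℝ, (∀ v ∈ D.Vt, 0 ≤ c v) ∧ ∑ v ∈ D.Vt, c v = 1 ∧
      x = ∑ v ∈ D.Vt, c v • toR v := by
  classical
  have h1 : x ∈ convexHull ℝ (((D.Vt.image toR : Finset (Fin d → ℝ))) : Set (Fin d → ℝ)) := by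
    rw [Finset.coe_image, ← D.hull]
    exact hx
  rw [Finset.mem_convexHull'] at h1
  obtain ⟨w, hw0, hw1, hw2⟩ := h1
  refine ⟨fun v => w (toR v), fun v hv => hw0 _ (Finset.mem_image_of_mem _ hv), ?_, ?_⟩
  · rw [← hw1, Finset.sum_image fun a _ b _ h => toR_injective h]
  · rw [← hw2, Finset.sum_image fun a _ b _ h => toR_injective h]

end VD

variable {n : ℕ} {P : Set (Fin (n + 1) → ℝ)}

/-- coordinates on a facet -/
def emb (D : VD P) (v : Fin (n + 1) → ℤ) (i : Fin (n + 1)) (y : Fin n → ℝ) : Fin (n + 1) → ℝ :=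
  toR v + ∑ l, y l • toR (D.E v (i.succAbove l))

/-- integer coordinates on a facet -/
def embZ (D : VD P) (v : Fin (n + 1) → ℤ) (i : Fin (n + 1)) (y : Fin n → ℤ) : Fin (n + 1) → ℤ :=
  v + ∑ l, y l • D.E v (i.succAbove l)

/-- the facet in coordinates -/
def Fc (D : VD P) (v : Fin (n + 1) → ℤ) (i : Fin (n + 1)) : Set (Fin n → ℝ) := {y | emb D v i y ∈ P}

/-- the inverse coordinates -/
def co (D : VD P) (v : Fin (n + 1) → ℤ) (i : Fin (n + 1)) (w : Fin (n + 1) → ℤ) : Fin n → ℤ :=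
  fun l => D.U v (i.succAbove l) ⬝ᵥ (w - v)

theorem emb_toR (D : VD P) (v : Fin (n + 1) → ℤ) (i : Fin (n + 1)) (y : Fin n → ℤ) :
    emb D v i (toR y) = toR (embZ D v i y) := by
  unfold emb embZ
  rw [toR_add, toR_sum]
  congr 1
  refine Finset.sum_congr rfl fun l _ => ?_
  rw [toR_zsmul, toR_apply]

theorem mem_Fc {D : VD P} {v : Fin (n + 1) → ℤ} {i : Fin (n + 1)} {y : Fin n → ℤ} :
    toR y ∈ Fc D v i ↔ toR (embZ D v i y) ∈ P := by
  unfold Fc
  rw [Set.mem_setOf_eq, emb_toR]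

/-- expansion of vectors parallel to the facet -/
theorem parZ (D : VD P) {v : Fin (n + 1) → ℤ} (hv : v ∈ D.Vt) (i : Fin (n + 1))
    {z : Fin (n + 1) → ℤ} (hz : D.U v i ⬝ᵥ z = 0) :
    z = ∑ l, (D.U v (i.succAbove l) ⬝ᵥ z) • D.E v (i.succAbove l) := by
  have h := D.spanZ hv z
  rw [Fin.sum_univ_succAbove _ i, hz, zero_smul, zero_add] at h
  exact h

theorem par (D : VD P) {v : Fin (n + 1) → ℤ} (hv : v ∈ D.Vt) (i : Fin (n + 1))
    {z : Fin (n + 1) → ℝ} (hz : toR (D.U v i) ⬝ᵥ z = 0) :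
    z = ∑ l, (toR (D.U v (i.succAbove l)) ⬝ᵥ z) • toR (D.E v (i.succAbove l)) := by
  have h := D.span hv z
  rw [Fin.sum_univ_succAbove _ i, hz, zero_smul, zero_add] at h
  exact h

theorem dotZ (D : VD P) {v : Fin (n + 1) → ℤ} (hv : v ∈ D.Vt) (i : Fin (n + 1))
    {z : Fin (n + 1) → ℤ} (hz : D.U v i ⬝ᵥ z = 0) (g : Fin (n + 1) → ℤ) :
    ∑ l, (g ⬝ᵥ D.E v (i.succAbove l)) * (D.U v (i.succAbove l) ⬝ᵥ z) = g ⬝ᵥ z := by
  conv_rhs => rw [parZ D hv i hz]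
  rw [dotProduct_sum]
  refine Finset.sum_congr rfl fun l _ => ?_
  rw [dotProduct_smul, smul_eq_mul, mul_comm]

theorem embZ_co (D : VD P) {v : Fin (n + 1) → ℤ} (hv : v ∈ D.Vt) (i : Fin (n + 1))
    {w : Fin (n + 1) → ℤ} (hw : D.U v i ⬝ᵥ (w - v) = 0) : embZ D v i (co D v i w) = w := by
  unfold embZ co
  rw [← parZ D hv i hw]
  abel

theorem embZ_co' (D : VD P) {v : Fin (n + 1) → ℤ} (hv : v ∈ D.Vt) (i : Fin (n + 1))
    {w e : Fin (n + 1) → ℤ} (hw : D.U v i ⬝ᵥ (w - v) = 0) (he : D.U v i ⬝ᵥ e = 0) :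
    embZ D v i (co D v i w + fun l => D.U v (i.succAbove l) ⬝ᵥ e) = w + e := by
  have h : (co D v i w + fun l => D.U v (i.succAbove l) ⬝ᵥ e) = co D v i (w + e) := by
    funext l
    unfold co
    rw [Pi.add_apply, ← dotProduct_add]
    congr 1
    abel
  rw [h, embZ_co D hv i]
  have e1 : w + e - v = (w - v) + e := by abel
  rw [e1, dotProduct_add, hw, he, add_zero]

theorem emb_dot (D : VD P) {v : Fin (n + 1) → ℤ} (i : Fin (n + 1)) (a : Fin (n + 1) → ℤ)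
    (y : Fin n → ℝ) : toR a ⬝ᵥ emb D v i y =
      toR (fun l => a ⬝ᵥ D.E v (i.succAbove l)) ⬝ᵥ y + ((a ⬝ᵥ v : ℤ) : ℝ) := by
  unfold emb
  rw [dotProduct_add, toR_dot, dotProduct_sum, add_comm]
  congr 1
  unfold dotProduct
  refine Finset.sum_congr rfl fun l _ => ?_
  have h := dotProduct_smul (y l) (toR a) (toR (D.E v (i.succAbove l)))
  rw [toR_dot, smul_eq_mul] at h
  rw [toR_apply, mul_comm]
  exact h

open Classical in
/-- the inequalities of the facet -/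
noncomputable def FA (D : VD P) (v : Fin (n + 1) → ℤ) (i : Fin (n + 1)) :
    Finset ((Fin n → ℤ) × ℤ) :=
  (D.A.image (fun a => ((fun l => a.1 ⬝ᵥ D.E v (i.succAbove l)), a.1 ⬝ᵥ v + a.2))).filter
    (fun a => a.1 ≠ 0)

theorem mem_FA {D : VD P} {v : Fin (n + 1) → ℤ} {i : Fin (n + 1)} {b : (Fin n → ℤ) × ℤ} :
    b ∈ FA D v i ↔ (∃ a ∈ D.A, b = ((fun l => a.1 ⬝ᵥ D.E v (i.succAbove l)), a.1 ⬝ᵥ v + a.2)) ∧
      b.1 ≠ 0 := by
  classical
  unfold FA
  rw [Finset.mem_filter, Finset.mem_image]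
  refine and_congr ?_ Iff.rfl
  constructor
  · rintro ⟨a, ha, rfl⟩
    exact ⟨a, ha, rfl⟩
  · rintro ⟨a, ha, rfl⟩
    exact ⟨a, ha, rfl⟩

theorem F_hrep (D : VD P) {v : Fin (n + 1) → ℤ} (hv : v ∈ D.Vt) (i : Fin (n + 1))
    (y : Fin n → ℝ) : y ∈ Fc D v i ↔ ∀ b ∈ FA D v i, 0 ≤ toR b.1 ⬝ᵥ y + (b.2 : ℝ) := by
  unfold Fc
  rw [Set.mem_setOf_eq, D.hrep]
  have key : ∀ a : (Fin (n + 1) → ℤ) × ℤ, toR a.1 ⬝ᵥ emb D v i y + (a.2 : ℝ) =
      toR (fun l => a.1 ⬝ᵥ D.E v (i.succAbove l)) ⬝ᵥ y + ((a.1 ⬝ᵥ v + a.2 : ℤ) : ℝ) := by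
    intro a
    rw [emb_dot]
    push_cast
    ring
  constructor
  · rintro h b hb
    obtain ⟨⟨a, ha, rfl⟩, -⟩ := mem_FA.1 hb
    rw [← key]
    exact h a ha
  · intro h a ha
    rw [key]
    by_cases h0 : (fun l => a.1 ⬝ᵥ D.E v (i.succAbove l)) = 0
    · rw [h0, toR_zero, zero_dotProduct, zero_add]
      exact_mod_cast D.nn ha (D.vmem hv)
    · exact h ((fun l => a.1 ⬝ᵥ D.E v (i.succAbove l)), a.1 ⬝ᵥ v + a.2)
        (mem_FA.2 ⟨⟨a, ha, rfl⟩, h0⟩)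

open Classical in
/-- the vertices of the facet -/
noncomputable def FV (D : VD P) (v : Fin (n + 1) → ℤ) (i : Fin (n + 1)) : Finset (Fin n → ℤ) :=
  (D.Vt.filter (fun w => D.U v i ⬝ᵥ (w - v) = 0)).image (co D v i)

theorem mem_FV {D : VD P} {v : Fin (n + 1) → ℤ} {i : Fin (n + 1)} {p : Fin n → ℤ} :
    p ∈ FV D v i ↔ ∃ w ∈ D.Vt, D.U v i ⬝ᵥ (w - v) = 0 ∧ co D v i w = p := by
  classical
  unfold FV
  rw [Finset.mem_image]
  constructor
  · rintro ⟨w, hw, rfl⟩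
    obtain ⟨h1, h2⟩ := Finset.mem_filter.1 hw
    exact ⟨w, h1, h2, rfl⟩
  · rintro ⟨w, h1, h2, rfl⟩
    exact ⟨w, Finset.mem_filter.2 ⟨h1, h2⟩, rfl⟩

theorem coneZ (D : VD P) {v w : Fin (n + 1) → ℤ} (hv : v ∈ D.Vt) (hw : w ∈ D.Vt) (i : Fin (n + 1)) :
    0 ≤ D.U v i ⬝ᵥ (w - v) := by
  have h := D.cone hv i (D.vmem hw)
  rw [← toR_sub, toR_dot] at h
  exact_mod_cast h

theorem F_hull (D : VD P) {v : Fin (n + 1) → ℤ} (hv : v ∈ D.Vt) (i : Fin (n + 1)) :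
    Fc D v i = convexHull ℝ (toR '' (FV D v i : Set (Fin n → ℤ))) := by
  classical
  apply Set.Subset.antisymm
  · intro y hy
    obtain ⟨c, hc0, hc1, hc2⟩ := D.combo (show emb D v i y ∈ P from hy)
    -- the coordinates of the point
    have hcoord : ∀ j, toR (D.U v j) ⬝ᵥ (emb D v i y - toR v) =
        ∑ w ∈ D.Vt, c w * ((D.U v j ⬝ᵥ (w - v) : ℤ) : ℝ) := by
      intro j
      have e1 : emb D v i y - toR v = ∑ w ∈ D.Vt, c w • toR (w - v) := by
        rw [hc2]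
        have e2 : ∑ w ∈ D.Vt, c w • toR (w - v) = ∑ w ∈ D.Vt, c w • toR w - ∑ w ∈ D.Vt, c w • toR v := by
          rw [← Finset.sum_sub_distrib]
          refine Finset.sum_congr rfl fun w _ => ?_
          rw [toR_sub, smul_sub]
        rw [e2, ← Finset.sum_smul, hc1, one_smul]
      rw [e1, dotProduct_sum]
      refine Finset.sum_congr rfl fun w _ => ?_
      rw [dotProduct_smul, toR_dot, smul_eq_mul]
    have hl : ∀ j, toR (D.U v j) ⬝ᵥ (emb D v i y - toR v) =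
        ∑ l, y l * (if j = i.succAbove l then 1 else 0) := by
      intro j
      unfold emb
      rw [add_sub_cancel_left, dotProduct_sum]
      refine Finset.sum_congr rfl fun l _ => ?_
      rw [dotProduct_smul, toR_dot, D.dual v hv, smul_eq_mul]
      split_ifs <;> simp
    have hi : ∑ w ∈ D.Vt, c w * ((D.U v i ⬝ᵥ (w - v) : ℤ) : ℝ) = 0 := by
      rw [← hcoord, hl]
      refine Finset.sum_eq_zero fun l _ => ?_
      rw [if_neg (Fin.succAbove_ne i l).symm, mul_zero]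
    have hz : ∀ w ∈ D.Vt, c w * ((D.U v i ⬝ᵥ (w - v) : ℤ) : ℝ) = 0 :=
      (Finset.sum_eq_zero_iff_of_nonneg fun w hw => mul_nonneg (hc0 w hw)
        (by exact_mod_cast coneZ D hv hw i)).1 hi
    have hyl : y = ∑ w ∈ D.Vt, c w • toR (co D v i w) := by
      funext l
      have h1 := hl (i.succAbove l)
      rw [hcoord] at h1
      have h2 : ∑ l', y l' * (if i.succAbove l = i.succAbove l' then (1 : ℝ) else 0) = y l := by
        simp
      rw [h2] at h1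
      rw [← h1, Finset.sum_apply]
      rfl
    have hyF : y = ∑ w ∈ D.Vt.filter (fun w => D.U v i ⬝ᵥ (w - v) = 0), c w • toR (co D v i w) := by
      rw [Finset.sum_filter_of_ne, ← hyl]
      intro w hw hne
      by_contra hcon
      rcases mul_eq_zero.1 (hz w hw) with h | h
      · exact hne (by rw [h, zero_smul])
      · exact hcon (by exact_mod_cast h)
    have h1F : ∑ w ∈ D.Vt.filter (fun w => D.U v i ⬝ᵥ (w - v) = 0), c w = 1 := by
      rw [Finset.sum_filter_of_ne, hc1]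
      intro w hw hne
      by_contra hcon
      rcases mul_eq_zero.1 (hz w hw) with h | h
      · exact hne h
      · exact hcon (by exact_mod_cast h)
    rw [hyF]
    refine (convex_convexHull ℝ _).sum_mem (fun w hw => hc0 w (Finset.mem_filter.1 hw).1) h1F
      fun w hw => subset_convexHull ℝ _ ⟨_, mem_FV.2 ⟨w, (Finset.mem_filter.1 hw).1,
        (Finset.mem_filter.1 hw).2, rfl⟩, rfl⟩
  · refine convexHull_min ?_ (convex_of_hrep (F_hrep D hv i))
    rintro _ ⟨p, hp, rfl⟩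
    obtain ⟨w, hw, h0, rfl⟩ := mem_FV.1 hp
    rw [mem_Fc, embZ_co D hv i h0]
    exact D.vmem hw

theorem F_loc (D : VD P) {v w : Fin (n + 1) → ℤ} (hv : v ∈ D.Vt) (hw : w ∈ D.Vt) (i : Fin (n + 1))
    (h0 : D.U v i ⬝ᵥ (w - v) = 0) : Loc (Fc D v i) (FA D v i) (co D v i w) := by
  obtain ⟨j0, hj0⟩ := D.tight w hw _ (D.uA v hv i) (by
    simp only
    rw [dotProduct_sub] at h0
    linarith)
  simp only at hj0
  have hE0 : ∀ j, D.U v i ⬝ᵥ D.E w (j0.succAbove j) = 0 := fun j => by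
    rw [← hj0, D.dual w hw, if_neg (Fin.succAbove_ne j0 j).symm]
  have hdual : ∀ a b : Fin n, (fun l => D.U w (j0.succAbove a) ⬝ᵥ D.E v (i.succAbove l)) ⬝ᵥ
      (fun l => D.U v (i.succAbove l) ⬝ᵥ D.E w (j0.succAbove b)) = if a = b then 1 else 0 := by
    intro a b
    have h1 := dotZ D hv i (hE0 b) (D.U w (j0.succAbove a))
    rw [D.dual w hw] at h1
    simp only [Fin.succAbove_right_inj] at h1
    exact h1
  refine ⟨fun j => fun l => D.U v (i.succAbove l) ⬝ᵥ D.E w (j0.succAbove j),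
    fun j => fun l => D.U w (j0.succAbove j) ⬝ᵥ D.E v (i.succAbove l), hdual, ?_, ?_, ?_⟩
  · intro j
    rw [mem_Fc, embZ_co' D hv i h0 (hE0 j)]
    exact D.mem w hw _
  · intro j
    refine mem_FA.2 ⟨⟨_, D.uA w hw (j0.succAbove j), Prod.ext rfl ?_⟩, ?_⟩
    · simp only
      have h1 := dotZ D hv i h0 (D.U w (j0.succAbove j))
      have h2 : (fun l => D.U w (j0.succAbove j) ⬝ᵥ D.E v (i.succAbove l)) ⬝ᵥ co D v i w =
          D.U w (j0.succAbove j) ⬝ᵥ (w - v) := h1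
      rw [h2, dotProduct_sub]
      ring
    · simp only
      intro h
      have h1 := hdual j j
      rw [h, zero_dotProduct, if_pos rfl] at h1
      exact absurd h1 (by norm_num)
  · intro b hb hz
    obtain ⟨⟨a, ha, rfl⟩, hne⟩ := mem_FA.1 hb
    simp only at hz hne ⊢
    have h1 := dotZ D hv i h0 a.1
    have h2 : (fun l => a.1 ⬝ᵥ D.E v (i.succAbove l)) ⬝ᵥ co D v i w = a.1 ⬝ᵥ (w - v) := h1
    rw [h2, dotProduct_sub] at hz
    obtain ⟨j, hj⟩ := D.tight w hw a ha (by linarith)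
    have hjj : j ≠ j0 := by
      rintro rfl
      apply hne
      funext l
      rw [← hj, hj0, D.dual v hv, if_neg (Fin.succAbove_ne i l).symm]
      rfl
    obtain ⟨j', rfl⟩ := Fin.exists_succAbove_eq hjj
    exact ⟨j', by rw [hj]⟩

theorem facet (D : VD P) {v : Fin (n + 1) → ℤ} (hv : v ∈ D.Vt) (i : Fin (n + 1)) :
    ∃ D' : VD (Fc D v i), D'.A = FA D v i := by
  refine VD.of_loc (Vt := FV D v i) ?_ (F_hull D hv i) (F_hrep D hv i) ?_ ?_
  · exact ⟨_, mem_FV.2 ⟨v, hv, by rw [sub_self, dotProduct_zero], rfl⟩⟩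
  · intro a ha
    exact (mem_FA.1 ha).2
  · intro p hp
    obtain ⟨w, hw, h0, rfl⟩ := mem_FV.1 hp
    exact F_loc D hv hw i h0

/-- a point of `2 P` on a facet -/
theorem dec_of_facet (D : VD P) {v : Fin (n + 1) → ℤ} (hv : v ∈ D.Vt) (i : Fin (n + 1))
    {x : Fin (n + 1) → ℤ} {y : Fin (n + 1) → ℝ} (hy : y ∈ P) (hxy : toR x = (2 : ℝ) • y)
    (hx : D.U v i ⬝ᵥ (x - (v + v)) = 0) (h : Sum2 (Fc D v i)) : Dec P x := by
  have hy0 : toR (D.U v i) ⬝ᵥ (y - toR v) = 0 := by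
    have h1 : ((D.U v i ⬝ᵥ (x - (v + v)) : ℤ) : ℝ) = 0 := by rw [hx, Int.cast_zero]
    rw [← toR_dot, toR_sub, toR_add, hxy, ← two_smul ℝ (toR v), ← smul_sub, dotProduct_smul,
      smul_eq_mul] at h1
    linarith
  have g1 : (fun l => toR (D.U v (i.succAbove l)) ⬝ᵥ (y - toR v)) ∈ Fc D v i := by
    show emb D v i _ ∈ P
    unfold emb
    have h1 := par D hv i hy0
    rw [← h1, add_sub_cancel]
    exact hy
  have g2 : toR (fun l => D.U v (i.succAbove l) ⬝ᵥ (x - (v + v))) =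
      (2 : ℝ) • (fun l => toR (D.U v (i.succAbove l)) ⬝ᵥ (y - toR v)) := by
    funext l
    show ((D.U v (i.succAbove l) ⬝ᵥ (x - (v + v)) : ℤ) : ℝ) =
      2 * (toR (D.U v (i.succAbove l)) ⬝ᵥ (y - toR v))
    rw [← toR_dot, toR_sub, toR_add, hxy, ← two_smul ℝ (toR v), ← smul_sub, dotProduct_smul,
      smul_eq_mul]
  obtain ⟨p, q, hp, hq, hpq⟩ := h _ ⟨_, g1, g2⟩
  refine ⟨embZ D v i p, embZ D v i q, mem_Fc.1 hp, mem_Fc.1 hq, ?_⟩
  have h1 := parZ D hv i hx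
  have h2 : ∀ l, D.U v (i.succAbove l) ⬝ᵥ (x - (v + v)) = p l + q l := fun l => congrFun hpq l
  simp only [h2, add_smul] at h1
  rw [Finset.sum_add_distrib] at h1
  unfold embZ
  have e : x = (x - (v + v)) + (v + v) := by abel
  rw [e, h1]
  abel

end Pool.Agent.H19.FE
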