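import Pool.Agent.H19.FE.Defs

/-!
# Vertex data from local data, coordinates
-/

set_option autoImplicit false
set_option linter.all false

namespace Pool.Agent.H19.FE

open H66OD Matrix

variable {d : ℕ} {P : Set (Fin d → ℝ)}

/-- local data at the vertex `p` -/
def Loc (P : Set (Fin d → ℝ)) (A : Finset ((Fin d → ℤ) × ℤ)) (p : Fin d → ℤ) : Prop :=
  ∃ E U : Fin d → (Fin d → ℤ), (∀ i j, U i ⬝ᵥ E j = if i = j then 1 else 0) ∧
    (∀ i, toR (p + E i) ∈ P) ∧ (∀ i, (U i, -(U i ⬝ᵥ p)) ∈ A) ∧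
    ∀ a ∈ A, a.1 ⬝ᵥ p + a.2 = 0 → ∃ i, U i = a.1

theorem VD.of_loc {Vt : Finset (Fin d → ℤ)} (ne : Vt.Nonempty)
    (hull : P = convexHull ℝ (toR '' (Vt : Set (Fin d → ℤ)))) {A : Finset ((Fin d → ℤ) × ℤ)}
    (hrep : ∀ x : Fin d → ℝ, x ∈ P ↔ ∀ a ∈ A, 0 ≤ toR a.1 ⬝ᵥ x + (a.2 : ℝ))
    (nz : ∀ a ∈ A, a.1 ≠ 0) (loc : ∀ p ∈ Vt, Loc P A p) : ∃ D : VD P, D.A = A := by
  classical
  have h : ∀ p : Fin d → ℤ, ∃ EU : (Fin d → (Fin d → ℤ)) × (Fin d → (Fin d → ℤ)), p ∈ Vt →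
      (∀ i j, EU.2 i ⬝ᵥ EU.1 j = if i = j then 1 else 0) ∧
      (∀ i, toR (p + EU.1 i) ∈ P) ∧ (∀ i, (EU.2 i, -(EU.2 i ⬝ᵥ p)) ∈ A) ∧
      ∀ a ∈ A, a.1 ⬝ᵥ p + a.2 = 0 → ∃ i, EU.2 i = a.1 := by
    intro p
    by_cases hp : p ∈ Vt
    · obtain ⟨E, U, h⟩ := loc p hp
      exact ⟨(E, U), fun _ => h⟩
    · exact ⟨(fun _ => 0, fun _ => 0), fun h => absurd h hp⟩
  choose EU hEU using h
  exact ⟨⟨Vt, ne, hull, fun p => (EU p).1, fun p => (EU p).2, fun v hv => (hEU v hv).1,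
    fun v hv => (hEU v hv).2.1, A, hrep, fun v hv => (hEU v hv).2.2.1,
    fun v hv => (hEU v hv).2.2.2, nz⟩, rfl⟩

theorem VD.loc (D : VD P) {p : Fin d → ℤ} (hp : p ∈ D.Vt) : Loc P D.A p :=
  ⟨D.E p, D.U p, D.dual p hp, D.mem p hp, D.uA p hp, D.tight p hp⟩

theorem toR_cons (t : ℤ) (x : Fin d → ℤ) : toR (vecCons t x) = vecCons (t : ℝ) (toR x) := by
  funext i
  refine Fin.cases ?_ (fun j => ?_) i
  · simp [toR]
  · simp [toR]

theorem tail_toR (x : Fin (d + 1) → ℤ) : vecTail (toR x) = toR (vecTail x) := by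
  funext i
  simp [toR, vecTail]

theorem head_tail {α : Type} (z : Fin (d + 1) → α) : vecCons (z 0) (vecTail z) = z := by
  funext i
  refine Fin.cases ?_ (fun j => ?_) i
  · simp
  · simp [vecTail]

theorem dot_cons (t s : ℝ) (x y : Fin d → ℝ) : vecCons t x ⬝ᵥ vecCons s y = t * s + x ⬝ᵥ y :=
  Matrix.cons_dotProduct_cons t x s y

theorem dot_consZ (t s : ℤ) (x y : Fin d → ℤ) : vecCons t x ⬝ᵥ vecCons s y = t * s + x ⬝ᵥ y :=
  Matrix.cons_dotProduct_cons t x s y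

theorem cons_add (t s : ℤ) (x y : Fin d → ℤ) : vecCons t x + vecCons s y = vecCons (t + s) (x + y) := by
  funext i
  refine Fin.cases ?_ (fun j => ?_) i
  · simp
  · simp

theorem comb_cons (a b t s : ℝ) (x y : Fin d → ℝ) :
    a • vecCons t x + b • vecCons s y = vecCons (a * t + b * s) (a • x + b • y) := by
  funext i
  refine Fin.cases ?_ (fun j => ?_) i
  · simp
  · simp

theorem tail_comb (a b : ℝ) (x y : Fin (d + 1) → ℝ) :
    vecTail (a • x + b • y) = a • vecTail x + b • vecTail y := by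
  funext i
  simp [vecTail]

theorem tail_cons' {α : Type} (t : α) (x : Fin d → α) : vecTail (vecCons t x) = x := by
  funext i
  simp [vecTail]

end Pool.Agent.H19.FE
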