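import Pool.Agent.H19.FE.Sc

/-!
# Facet normals of a smooth polytope given by inequalities `a · x ≤ 1`
-/

set_option autoImplicit false
set_option linter.all false

namespace Pool.Agent.H19.FE

open H66OD Matrix

variable {d : ℕ} {Q : Set (Fin d → ℝ)}

theorem nrm_dot (D : VD Q) {v : Fin d → ℤ} (hv : v ∈ D.Vt) (a x : Fin d → ℤ) :
    a ⬝ᵥ x = ∑ l, (D.U v l ⬝ᵥ x) * (a ⬝ᵥ D.E v l) := by
  conv_lhs => rw [D.spanZ hv x]
  rw [dotProduct_sum]
  refine Finset.sum_congr rfl fun l _ => ?_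
  rw [dotProduct_smul, smul_eq_mul]

theorem nrm_eq (D : VD Q) {v : Fin d → ℤ} (hv : v ∈ D.Vt) {a : Fin d → ℤ} {i : Fin d}
    (h : ∀ l, l ≠ i → a ⬝ᵥ D.E v l = 0) : a = (a ⬝ᵥ D.E v i) • D.U v i := by
  have h1 : ∀ x, a ⬝ᵥ x = (D.U v i ⬝ᵥ x) * (a ⬝ᵥ D.E v i) := by
    intro x
    rw [nrm_dot D hv a x]
    refine Finset.sum_eq_single i (fun l _ hl => ?_) (fun h => absurd (Finset.mem_univ i) h)
    rw [h l hl, mul_zero]
  funext j
  have h2 := h1 (Pi.single j 1)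
  rw [dotProduct_single, dotProduct_single, mul_one, mul_one] at h2
  rw [Pi.smul_apply, smul_eq_mul, h2, mul_comm]

theorem nrm (D : VD Q) {A : Finset (Fin d → ℤ)}
    (hQ : ∀ x : Fin d → ℝ, x ∈ Q ↔ ∀ a ∈ A, toR a ⬝ᵥ x ≤ 1) {v : Fin d → ℤ} (hv : v ∈ D.Vt)
    (i : Fin d) : -(D.U v i) ∈ A ∧ D.U v i ⬝ᵥ v = -1 := by
  classical
  obtain ⟨K, hK⟩ : ∃ K, K = ∑ a ∈ A, |a ⬝ᵥ D.E v i| := ⟨_, rfl⟩
  have hKa : ∀ a ∈ A, |a ⬝ᵥ D.E v i| ≤ K := by
    intro a ha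
    rw [hK]
    exact Finset.single_le_sum (fun b _ => abs_nonneg (b ⬝ᵥ D.E v i)) ha
  have hK0 : 0 ≤ K := by
    rw [hK]
    exact Finset.sum_nonneg fun a _ => abs_nonneg _
  have hd0 : (0 : ℝ) < (d : ℝ) + 1 := by positivity
  have hK0' : (0 : ℝ) < (K : ℝ) + 1 := by
    have : (0 : ℝ) ≤ (K : ℝ) := by exact_mod_cast hK0
    linarith
  -- the test point
  set w : Fin d → ℤ := (K + 1) • ∑ l ∈ Finset.univ.erase i, D.E v l - D.E v i with hw
  have hUw : D.U v i ⬝ᵥ w = -1 := by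
    rw [hw, dotProduct_sub, dotProduct_smul, dotProduct_sum, D.dual v hv, if_pos rfl]
    have h0 : ∑ l ∈ Finset.univ.erase i, D.U v i ⬝ᵥ D.E v l = 0 := by
      refine Finset.sum_eq_zero fun l hl => ?_
      rw [D.dual v hv, if_neg (Finset.ne_of_mem_erase hl).symm]
    rw [h0]
    simp
  have hnot : toR v + (1 / (((d : ℝ) + 1) * ((K : ℝ) + 1))) • toR w ∉ Q := by
    intro hmem
    have h1 := D.cone hv i hmem
    rw [add_sub_cancel_left, dotProduct_smul, toR_dot, hUw, smul_eq_mul] at h1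
    push_cast at h1
    have h2 : 0 < 1 / (((d : ℝ) + 1) * ((K : ℝ) + 1)) := by positivity
    linarith
  rw [hQ] at hnot
  push Not at hnot
  obtain ⟨a, ha, hlt⟩ := hnot
  have hav : a ⬝ᵥ v ≤ 1 := by
    have := (hQ _).1 (D.vmem hv) a ha
    rw [toR_dot] at this
    exact_mod_cast this
  have hal : ∀ l, a ⬝ᵥ v + a ⬝ᵥ D.E v l ≤ 1 := by
    intro l
    have := (hQ _).1 (D.mem v hv l) a ha
    rw [toR_dot, dotProduct_add] at this
    exact_mod_cast this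
  -- the integer form of the strict inequality
  have hint : ((d : ℤ) + 1) * (K + 1) < ((d : ℤ) + 1) * (K + 1) * (a ⬝ᵥ v) + a ⬝ᵥ w := by
    rw [dotProduct_add, dotProduct_smul, toR_dot, toR_dot, smul_eq_mul] at hlt
    have hpos : 0 < ((d : ℝ) + 1) * ((K : ℝ) + 1) := by positivity
    have key : ∀ m x y : ℝ, 0 < m → 1 < x + 1 / m * y → m < m * x + y := by
      intro m x y hm h
      have h3 := mul_lt_mul_of_pos_left h hm
      have e : m * (x + 1 / m * y) = m * x + y := by field_simp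
      rw [e, mul_one] at h3
      exact h3
    have h3 := key _ _ _ hpos hlt
    exact_mod_cast h3
  have haw : a ⬝ᵥ w = (K + 1) * ∑ l ∈ Finset.univ.erase i, a ⬝ᵥ D.E v l - a ⬝ᵥ D.E v i := by
    rw [hw, dotProduct_sub, dotProduct_smul, dotProduct_sum, smul_eq_mul]
  have hS : ∑ l ∈ Finset.univ.erase i, a ⬝ᵥ D.E v l ≤ (d : ℤ) * (1 - a ⬝ᵥ v) := by
    have h1 : ∀ l ∈ Finset.univ.erase i, a ⬝ᵥ D.E v l ≤ 1 - a ⬝ᵥ v := fun l _ => by
      have := hal l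
      linarith
    have h2 := Finset.sum_le_sum h1
    rw [Finset.sum_const, nsmul_eq_mul, Finset.card_erase_of_mem (Finset.mem_univ i),
      Finset.card_univ, Fintype.card_fin] at h2
    have h3 : ((d - 1 : ℕ) : ℤ) ≤ (d : ℤ) := by
      have : d - 1 ≤ d := Nat.sub_le d 1
      exact_mod_cast this
    have h4 : 0 ≤ 1 - a ⬝ᵥ v := by linarith
    exact h2.trans (mul_le_mul_of_nonneg_right h3 h4)
  have hEi : -(a ⬝ᵥ D.E v i) ≤ K := (neg_le_abs _).trans (hKa a ha)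
  have hα : a ⬝ᵥ v = 1 := by
    by_contra hcon
    have h1 : a ⬝ᵥ v ≤ 0 := by omega
    have h2 : (K + 1) * ∑ l ∈ Finset.univ.erase i, a ⬝ᵥ D.E v l ≤
        (K + 1) * ((d : ℤ) * (1 - a ⬝ᵥ v)) := mul_le_mul_of_nonneg_left hS (by linarith)
    nlinarith
  have hS0 : ∑ l ∈ Finset.univ.erase i, a ⬝ᵥ D.E v l = 0 := by
    rw [hα, sub_self, mul_zero] at hS
    by_contra hcon
    have h1 : ∑ l ∈ Finset.univ.erase i, a ⬝ᵥ D.E v l ≤ -1 := by omega
    rw [haw, hα] at hint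
    nlinarith
  have hz : ∀ l, l ≠ i → a ⬝ᵥ D.E v l = 0 := by
    intro l hl
    have h1 : ∀ l ∈ Finset.univ.erase i, a ⬝ᵥ D.E v l ≤ 0 := fun l _ => by
      have := hal l
      linarith
    exact (Finset.sum_eq_zero_iff_of_nonpos h1).1 hS0 l (Finset.mem_erase.2 ⟨hl, Finset.mem_univ l⟩)
  have heq := nrm_eq D hv hz
  have h1 : (a ⬝ᵥ D.E v i) * (D.U v i ⬝ᵥ v) = 1 := by
    have h2 := hα
    rw [heq, smul_dotProduct, smul_eq_mul] at h2
    exact h2
  have hneg : a ⬝ᵥ D.E v i < 0 := by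
    rw [haw, hα, hS0] at hint
    linarith
  rcases Int.eq_one_or_neg_one_of_mul_eq_one' h1 with ⟨h2, h3⟩ | ⟨h2, h3⟩
  · omega
  · refine ⟨?_, h3⟩
    rw [h2, neg_smul, one_smul] at heq
    rw [← heq]
    exact ha

/-- an inequality which is tight at a vertex defines a facet -/
theorem nrm_tight (D : VD Q) {A : Finset (Fin d → ℤ)}
    (hQ : ∀ x : Fin d → ℝ, x ∈ Q ↔ ∀ a ∈ A, toR a ⬝ᵥ x ≤ 1) {v : Fin d → ℤ} (hv : v ∈ D.Vt)
    {a : Fin d → ℤ} (ha : a ∈ A) (h : a ⬝ᵥ v = 1) : ∃ i, D.U v i = -a := by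
  classical
  have hal : ∀ l, a ⬝ᵥ D.E v l ≤ 0 := by
    intro l
    have := (hQ _).1 (D.mem v hv l) a ha
    rw [toR_dot, dotProduct_add, h] at this
    have h2 : 1 + a ⬝ᵥ D.E v l ≤ 1 := by exact_mod_cast this
    linarith
  have hsum : ∑ l, a ⬝ᵥ D.E v l = -1 := by
    have h1 := nrm_dot D hv a v
    rw [h] at h1
    have h2 : ∀ l, D.U v l ⬝ᵥ v = -1 := fun l => (nrm D hQ hv l).2
    simp only [h2] at h1
    rw [← Finset.mul_sum] at h1
    linarith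
  obtain ⟨i, hi⟩ : ∃ i, a ⬝ᵥ D.E v i < 0 := by
    by_contra hcon
    push Not at hcon
    have : ∑ l, a ⬝ᵥ D.E v l = 0 := Finset.sum_eq_zero fun l _ => le_antisymm (hal l) (hcon l)
    omega
  have hsplit := Finset.add_sum_erase Finset.univ (fun l => a ⬝ᵥ D.E v l) (Finset.mem_univ i)
  have hle : ∑ l ∈ Finset.univ.erase i, a ⬝ᵥ D.E v l ≤ 0 := Finset.sum_nonpos fun l _ => hal l
  rw [hsum] at hsplit
  have hi1 : a ⬝ᵥ D.E v i = -1 := by omega
  have h0 : ∑ l ∈ Finset.univ.erase i, a ⬝ᵥ D.E v l = 0 := by omega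
  have hz : ∀ l, l ≠ i → a ⬝ᵥ D.E v l = 0 := fun l hl =>
    (Finset.sum_eq_zero_iff_of_nonpos fun l _ => hal l).1 h0 l
      (Finset.mem_erase.2 ⟨hl, Finset.mem_univ l⟩)
  refine ⟨i, ?_⟩
  have heq := nrm_eq D hv hz
  rw [hi1, neg_smul, one_smul] at heq
  rw [heq, neg_neg]

/-- vertex data with the given inequalities -/
theorem VD.ofA (D : VD Q) {A : Finset (Fin d → ℤ)}
    (hQ : ∀ x : Fin d → ℝ, x ∈ Q ↔ ∀ a ∈ A, toR a ⬝ᵥ x ≤ 1) (h0 : (0 : Fin d → ℤ) ∉ A) :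
    ∃ D' : VD Q, ∀ b, b ∈ D'.A ↔ ∃ a ∈ A, b = (-a, 1) := by
  classical
  obtain ⟨D', hD'⟩ : ∃ D' : VD Q, D'.A = A.image (fun a => (-a, (1 : ℤ))) := by
    refine VD.of_loc D.ne D.hull ?_ ?_ ?_
    · intro x
      rw [hQ, Finset.forall_mem_image]
      refine forall₂_congr fun a _ => ?_
      rw [toR_neg, neg_dotProduct, Int.cast_one]
      constructor
      · intro h
        linarith
      · intro h
        linarith
    · intro b hb
      obtain ⟨a, ha, rfl⟩ := Finset.mem_image.1 hb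
      simp only
      intro h
      apply h0
      rw [neg_eq_zero] at h
      rw [← h]
      exact ha
    · intro v hv
      refine ⟨D.E v, D.U v, D.dual v hv, D.mem v hv, fun i => ?_, ?_⟩
      · obtain ⟨h1, h2⟩ := nrm D hQ hv i
        refine Finset.mem_image.2 ⟨_, h1, Prod.ext (neg_neg _) ?_⟩
        simp only
        rw [h2]
        norm_num
      · intro b hb hz
        obtain ⟨a, ha, rfl⟩ := Finset.mem_image.1 hb
        simp only at hz ⊢
        rw [neg_dotProduct] at hz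
        exact nrm_tight D hQ hv ha (by linarith)
  refine ⟨D', fun b => ?_⟩
  rw [hD', Finset.mem_image]
  constructor
  · rintro ⟨a, ha, rfl⟩
    exact ⟨a, ha, rfl⟩
  · rintro ⟨a, ha, rfl⟩
    exact ⟨a, ha, rfl⟩

end Pool.Agent.H19.FE
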