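import Pool.Agent.H19.FE.Loc
import Pool.Agent.H19.OZ.Edg

/-!
# Row Sv (about 60 lines): a smooth polytope has vertex data

STATEMENT. If `IsSmooth P` then `Nonempty (VD P)`.

PROOF. `H19OZ.sd_of_smooth P hP : Nonempty (SD P)` (`Pool/Agent/H19/OZ/Edg.lean`); let `D : SD P`. In
`Pool/Agent/H19/P4/PolA.lean` (namespace `Pool.Agent.H19.P4.Pol`): `FF D` = facet normals, `mn D f` = minimum of `f` on
the vertices, `mem_FF`, `mn_eq`, `mn_real`, `mem_P`, `mem_Sg`, `Sg_of_eq`. Take `Vt := D.Vt`, `E := D.e`, `U := D.u`,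
`A := (FF D).image (fun f => (f, - mn D f))`.
`hrep`: `x ∈ P ↔ ∀ f ∈ FF D, (mn D f : ℝ) ≤ toR f ⬝ᵥ x` by `mn_real` and `mem_P`.
`uA`: `mn_eq`. `tight`: `a = (f, -mn D f)`, `f ⬝ᵥ v = mn D f`, so `f ∈ Sg D v` (`Sg_of_eq`), `mem_Sg`.
`nz`: `f = D.u v i` and `D.u v i ⬝ᵥ D.e v i = 1`.
-/

set_option autoImplicit false
set_option linter.all false

namespace Pool.Agent.H19.FE

open H66OD Matrix

variable {d : ℕ} {P : Set (Fin d → ℝ)}

theorem VD_of_smooth (hP : IsSmooth P) : Nonempty (VD P) := by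
  classical
  obtain ⟨D⟩ := H19OZ.sd_of_smooth P hP
  refine ⟨⟨D.Vt, D.ne, D.hull, D.e, D.u, D.dual, D.mem,
    (P4.Pol.FF D).image (fun f => (f, - P4.Pol.mn D f)), ?_, ?_, ?_, ?_⟩⟩
  · intro x
    constructor
    · intro hx a ha
      obtain ⟨f, hf, rfl⟩ := Finset.mem_image.1 ha
      have h1 := P4.Pol.mn_real D hf hx
      push_cast
      linarith
    · intro h
      refine P4.Pol.mem_P D fun f hf => ?_
      have h1 := h _ (Finset.mem_image.2 ⟨f, hf, rfl⟩)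
      push_cast at h1
      linarith
  · intro v hv i
    refine Finset.mem_image.2 ⟨D.u v i, P4.Pol.mem_FF.2 ⟨v, hv, i, rfl⟩, ?_⟩
    rw [P4.Pol.mn_eq D hv]
  · intro v hv a ha h
    obtain ⟨f, hf, rfl⟩ := Finset.mem_image.1 ha
    have h1 : f ⬝ᵥ v = P4.Pol.mn D f := by
      have h2 : f ⬝ᵥ v + (- P4.Pol.mn D f) = 0 := h
      linarith
    exact P4.Pol.mem_Sg.1 (P4.Pol.Sg_of_eq D hv hf h1)
  · intro a ha h
    obtain ⟨f, hf, rfl⟩ := Finset.mem_image.1 ha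
    obtain ⟨v, hv, i, rfl⟩ := P4.Pol.mem_FF.1 hf
    have h1 := D.dual v hv i i
    have h2 : D.u v i = 0 := h
    rw [h2, zero_dotProduct, if_pos rfl] at h1
    exact zero_ne_one h1

end Pool.Agent.H19.FE
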