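import Pool.Agent.H19.FE.Phi
import Pool.Agent.H19.FE.Nrm
import Pool.Agent.H19.FE.Crit
import Pool.Agent.H19.FE.Sv
import Pool.Agent.H19.P4.PolB

/-!
# Oda's question and linear forms with values `1` and `-1` on smooth Fano polytopes
-/

set_option autoImplicit false
set_option linter.all false

namespace Pool.Agent.H19.FE

open H66OD Matrix

variable {d : ℕ} {P : Set (Fin d → ℝ)}

theorem AtMost.of_finset {α : Type} (A : Finset α) (g : α → (Fin d → ℝ)) (h : α → ℝ)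
    (hP : ∀ x : Fin d → ℝ, x ∈ P ↔ ∀ a ∈ A, g a ⬝ᵥ x ≤ h a) {m : ℕ} (hm : A.card ≤ m) :
    AtMost m P := by
  classical
  refine ⟨fun i => if hi : (i : ℕ) < A.card then g (A.equivFin.symm ⟨i, hi⟩).1 else 0,
    fun i => if hi : (i : ℕ) < A.card then h (A.equivFin.symm ⟨i, hi⟩).1 else 0, ?_⟩
  ext x
  rw [hP, Set.mem_setOf_eq]
  constructor
  · intro hx i
    by_cases hi : (i : ℕ) < A.card
    · simp only [dif_pos hi]
      exact hx _ (A.equivFin.symm ⟨i, hi⟩).2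
    · simp only [dif_neg hi]
      rw [zero_dotProduct]
  · intro hx a ha
    have hlt : ((A.equivFin ⟨a, ha⟩ : Fin A.card) : ℕ) < A.card := (A.equivFin ⟨a, ha⟩).2
    have h1 := hx ⟨(A.equivFin ⟨a, ha⟩ : Fin A.card), lt_of_lt_of_le hlt hm⟩
    simp only [dif_pos hlt] at h1
    have h2 : (A.equivFin.symm ⟨((A.equivFin ⟨a, ha⟩ : Fin A.card) : ℕ), hlt⟩) = ⟨a, ha⟩ := by
      rw [Fin.eta, Equiv.symm_apply_apply]
    rw [h2] at h1
    exact h1

theorem VD_card (hP : IsSmooth P) {m : ℕ} (h : AtMost m P) : ∃ D : VD P, D.A.card ≤ m := by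
  classical
  obtain ⟨D⟩ := H19OZ.sd_of_smooth P hP
  obtain ⟨n, b, hnb⟩ := h
  refine ⟨⟨D.Vt, D.ne, D.hull, D.e, D.u, D.dual, D.mem,
    (P4.Pol.FF D).image (fun f => (f, - P4.Pol.mn D f)), ?_, ?_, ?_, ?_⟩, ?_⟩
  · intro x
    constructor
    · intro hx a ha
      obtain ⟨f, hf, rfl⟩ := Finset.mem_image.1 ha
      have h1 := P4.Pol.mn_real D hf hx
      push_cast
      linarith
    · intro h
      refine P4.Pol.mem_P D fun f hf => ?_
      have h1 := h _ (Finset.mem_image.2 ⟨f, hf, rfl⟩)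
      push_cast at h1
      linarith
  · intro v hv i
    refine Finset.mem_image.2 ⟨D.u v i, P4.Pol.mem_FF.2 ⟨v, hv, i, rfl⟩, ?_⟩
    rw [P4.Pol.mn_eq D hv]
  · intro v hv a ha h
    obtain ⟨f, hf, rfl⟩ := Finset.mem_image.1 ha
    have h1 : f ⬝ᵥ v = P4.Pol.mn D f := by
      have h2 : f ⬝ᵥ v + (- P4.Pol.mn D f) = 0 := h
      linarith
    exact P4.Pol.mem_Sg.1 (P4.Pol.Sg_of_eq D hv hf h1)
  · intro a ha h
    obtain ⟨f, hf, rfl⟩ := Finset.mem_image.1 ha
    obtain ⟨v, hv, i, rfl⟩ := P4.Pol.mem_FF.1 hf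
    have h1 := D.dual v hv i i
    have h2 : D.u v i = 0 := h
    rw [h2, zero_dotProduct, if_pos rfl] at h1
    exact zero_ne_one h1
  · exact Finset.card_image_le.trans (P4.Pol.card_le D n b hnb)

theorem smooth_vd : ∀ (d : ℕ) (P : Set (Fin d → ℝ)), VD P → IsSmooth P := fun _ _ D => smooth_of_VD D

/-- from sums of two points to the splitting property -/
theorem split_of_sum2 {A : Finset (Fin d → ℤ)} (hsm : IsSmooth (DualPolytope A))
    (H : ∀ P : Set (Fin d → ℝ), IsSmooth P → AtMost A.card P → Sum2 P) : OddSplit A := by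
  rintro ⟨c, hc⟩
  obtain ⟨D0⟩ := VD_of_smooth hsm
  have h0 : (0 : Fin d → ℤ) ∉ A := by
    intro h
    obtain ⟨r, hr⟩ := hc 0 h
    rw [zero_dotProduct] at hr
    omega
  have hQ : ∀ x : Fin d → ℝ, x ∈ DualPolytope A ↔ ∀ a ∈ A, toR a ⬝ᵥ x ≤ 1 := fun x => Iff.rfl
  obtain ⟨D, hD⟩ := D0.ofA hQ h0
  obtain ⟨D2⟩ := Hf_vd D (c := c) fun b hb => by
    obtain ⟨a, ha, rfl⟩ := (hD b).1 hb
    obtain ⟨r, hr⟩ := hc a ha
    refine ⟨-r, ?_⟩
    simp only
    rw [neg_dotProduct, hr]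
    ring
  have hat : AtMost A.card (Hf (DualPolytope A) c) := by
    refine AtMost.of_finset A (fun a => (2 : ℝ) • toR a) (fun a => 1 + ((a ⬝ᵥ c : ℤ) : ℝ)) ?_ le_rfl
    intro x
    unfold Hf
    rw [Set.mem_setOf_eq, hQ]
    refine forall₂_congr fun a _ => ?_
    rw [dotProduct_add, dotProduct_smul, dotProduct_neg, toR_dot, smul_dotProduct]
    constructor
    · intro h
      linarith
    · intro h
      linarith
  have hmid : (1 / 2 : ℝ) • toR c ∈ Hf (DualPolytope A) c := by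
    unfold Hf
    rw [Set.mem_setOf_eq, smul_smul, hQ]
    intro a _
    norm_num
  obtain ⟨p, q, hp, hq, hpq⟩ := H _ (smooth_of_VD D2) hat c ⟨_, hmid, by
    rw [smul_smul]
    norm_num⟩
  have hp' : toR (p + p - c) ∈ DualPolytope A := by
    have h1 := hp
    unfold Hf at h1
    rw [Set.mem_setOf_eq, two_smul] at h1
    rw [toR_sub, toR_add, sub_eq_add_neg]
    exact h1
  have hq' : toR (q + q - c) ∈ DualPolytope A := by
    have h1 := hq
    unfold Hf at h1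
    rw [Set.mem_setOf_eq, two_smul] at h1
    rw [toR_sub, toR_add, sub_eq_add_neg]
    exact h1
  refine ⟨p + p - c, fun a ha => ?_⟩
  have h1 : a ⬝ᵥ (p + p - c) ≤ 1 := by
    have := hp' a ha
    rw [toR_dot] at this
    exact_mod_cast this
  have h2 : a ⬝ᵥ (q + q - c) ≤ 1 := by
    have := hq' a ha
    rw [toR_dot] at this
    exact_mod_cast this
  obtain ⟨r, hr⟩ := hc a ha
  have h3 : a ⬝ᵥ c = a ⬝ᵥ p + a ⬝ᵥ q := by
    rw [hpq, dotProduct_add]
  rw [dotProduct_sub, dotProduct_add] at h1 h2 ⊢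
  omega

theorem sum2_of_phi {r : ℕ} (H : PhiR r) (hP : IsSmooth P) (h : AtMost (d + r) P) : Sum2 P := by
  obtain ⟨D, hD⟩ := VD_card hP h
  exact sum2_all smooth_vd H d P D hD

theorem phi_of_sum2 {r : ℕ}
    (H : ∀ (d : ℕ) (P : Set (Fin d → ℝ)), IsSmooth P → AtMost (d + r) P → Sum2 P) : PhiR r := by
  intro d A hA hsm
  refine split_of_sum2 hsm fun P hP hat => H d P hP ?_
  obtain ⟨n, b, hnb⟩ := hat
  refine AtMost.of_finset (Finset.univ : Finset (Fin A.card)) n b ?_ (by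
    rw [Finset.card_univ, Fintype.card_fin]
    exact hA)
  intro x
  rw [hnb, Set.mem_setOf_eq]
  simp

theorem idp_of_phi {r : ℕ} (H : PhiR (r + 1)) (D : VD P) (hD : D.A.card ≤ d + r) : HasIDP P := by
  refine idp_of_sum2 D (sum2_all smooth_vd H d P D (by omega)) fun N hN => ?_
  obtain ⟨D', hD'⟩ := tcone D (N := N) (c := 1) (by linarith) (by norm_num)
  refine sum2_all smooth_vd H (d + 1) _ D' ?_
  rw [hD']
  have := card_TA (A := D.A) (N := N) (c := 1)
  omega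

theorem main :
    ((∀ (d : ℕ) (P : Set (Fin d → ℝ)), IsSmooth P → HasIDP P) ↔
      ∀ (d : ℕ) (A : Finset (Fin d → ℤ)), IsSmooth (DualPolytope A) → OddSplit A) ∧
    ∀ r : ℕ,
      ((∀ (d : ℕ) (P : Set (Fin d → ℝ)), IsSmooth P → AtMost (d + r) P → Sum2 P) ↔
        ∀ (d : ℕ) (A : Finset (Fin d → ℤ)), A.card ≤ d + r →
          IsSmooth (DualPolytope A) → OddSplit A) ∧
      ((∀ (d : ℕ) (P : Set (Fin d → ℝ)), IsSmooth P → AtMost (d + (r + 1)) P → Sum2 P) →
        ∀ (d : ℕ) (P : Set (Fin d → ℝ)), IsSmooth P → AtMost (d + r) P → HasIDP P) := by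
  refine ⟨⟨fun H d A hsm => split_of_sum2 hsm fun P hP _ => sum2_of_idp (H d P hP),
    fun H d P hP => ?_⟩, fun r => ⟨⟨fun H => phi_of_sum2 H, fun H d P hP h => sum2_of_phi H hP h⟩,
    fun H d P hP h => ?_⟩⟩
  · obtain ⟨D⟩ := VD_of_smooth hP
    exact idp_of_phi (r := D.A.card) (fun d A _ hsm => H d A hsm) D (by omega)
  · obtain ⟨D, hD⟩ := VD_card hP h
    exact idp_of_phi (phi_of_sum2 H) D hD

end Pool.Agent.H19.FE
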