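import Pool.Agent.H19.FE.Fct

/-!
# Doubling and halving of smooth polytopes
-/

set_option autoImplicit false
set_option linter.all false

namespace Pool.Agent.H19.FE

open H66OD Matrix

variable {d : ℕ} {P : Set (Fin d → ℝ)}

theorem image_hull (s : ℝ) (t : Fin d → ℝ) (S : Set (Fin d → ℝ)) :
    (fun y => s • y + t) '' convexHull ℝ S = convexHull ℝ ((fun y => s • y + t) '' S) := by
  have h := AffineMap.image_convexHull
    (s • (AffineMap.id ℝ (Fin d → ℝ)) + AffineMap.const ℝ (Fin d → ℝ) t) S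
  have e : ⇑(s • (AffineMap.id ℝ (Fin d → ℝ)) + AffineMap.const ℝ (Fin d → ℝ) t) =
      fun y => s • y + t := by
    funext y
    simp
  rw [e] at h
  exact h

/-- the translate `2 P - x` -/
def Db (P : Set (Fin d → ℝ)) (x : Fin d → ℤ) : Set (Fin d → ℝ) :=
  {y | (1 / 2 : ℝ) • (y + toR x) ∈ P}

theorem Db_hrep (D : VD P) (x : Fin d → ℤ) (y : Fin d → ℝ) : y ∈ Db P x ↔
    ∀ a ∈ D.A, 0 ≤ toR a.1 ⬝ᵥ y + ((a.1 ⬝ᵥ x + 2 * a.2 : ℤ) : ℝ) := by
  unfold Db
  rw [Set.mem_setOf_eq, D.hrep]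
  refine forall₂_congr fun a _ => ?_
  rw [dotProduct_smul, dotProduct_add, toR_dot, smul_eq_mul]
  push_cast
  constructor
  · intro h
    linarith
  · intro h
    linarith

theorem Db_vd (D : VD P) (x : Fin d → ℤ) : Nonempty (VD (Db P x)) := by
  classical
  have hr : ∀ y : Fin d → ℝ, y ∈ Db P x ↔
      ∀ a ∈ D.A.image (fun a => (a.1, a.1 ⬝ᵥ x + 2 * a.2)), 0 ≤ toR a.1 ⬝ᵥ y + (a.2 : ℝ) := by
    intro y
    rw [Db_hrep D, Finset.forall_mem_image]
  obtain ⟨D', -⟩ : ∃ D' : VD (Db P x), D'.A = D.A.image (fun a => (a.1, a.1 ⬝ᵥ x + 2 * a.2)) := by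
    refine VD.of_loc (Vt := D.Vt.image (fun v => v + v - x)) (D.ne.image _) ?_ hr ?_ ?_
    · have e1 : Db P x = (fun y => (2 : ℝ) • y + (-toR x)) '' P := by
        ext y
        unfold Db
        rw [Set.mem_setOf_eq, Set.mem_image]
        constructor
        · intro h
          refine ⟨_, h, ?_⟩
          rw [smul_smul]
          norm_num
        · rintro ⟨z, hz, rfl⟩
          have : (1 / 2 : ℝ) • ((2 : ℝ) • z + -toR x + toR x) = z := by
            rw [add_assoc, neg_add_cancel, add_zero, smul_smul]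
            norm_num
          rw [this]
          exact hz
      have e2 : toR '' ((D.Vt.image (fun v => v + v - x) : Finset (Fin d → ℤ)) : Set (Fin d → ℤ)) =
          (fun y => (2 : ℝ) • y + (-toR x)) '' (toR '' (D.Vt : Set (Fin d → ℤ))) := by
        rw [Finset.coe_image, Set.image_image, Set.image_image]
        refine Set.image_congr fun v _ => ?_
        rw [toR_sub, toR_add, two_smul]
        abel
      rw [e1, e2]
      exact (congrArg (fun Z => (fun y => (2 : ℝ) • y + (-toR x)) '' Z) D.hull).trans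
        (image_hull _ _ _)
    · intro a ha
      obtain ⟨b, hb, rfl⟩ := Finset.mem_image.1 ha
      exact D.nz b hb
    · intro p hp
      obtain ⟨v, hv, rfl⟩ := Finset.mem_image.1 hp
      refine ⟨D.E v, D.U v, D.dual v hv, fun i => ?_, fun i => ?_, ?_⟩
      · show (1 / 2 : ℝ) • (toR (v + v - x + D.E v i) + toR x) ∈ P
        have e : (1 / 2 : ℝ) • (toR (v + v - x + D.E v i) + toR x) =
            (1 / 2 : ℝ) • toR v + (1 / 2 : ℝ) • toR (v + D.E v i) := by
          rw [← smul_add]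
          congr 1
          rw [toR_add, toR_sub, toR_add, toR_add]
          abel
        rw [e]
        exact D.convex (D.vmem hv) (D.mem v hv i) (by norm_num) (by norm_num) (by norm_num)
      · refine Finset.mem_image.2 ⟨_, D.uA v hv i, Prod.ext rfl ?_⟩
        simp only
        rw [dotProduct_sub, dotProduct_add]
        ring
      · intro a ha hz
        obtain ⟨b, hb, rfl⟩ := Finset.mem_image.1 ha
        simp only at hz ⊢
        rw [dotProduct_sub, dotProduct_add] at hz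
        exact D.tight v hv b hb (by linarith)
  exact ⟨D'⟩

/-- the polytope `(P + c) / 2` -/
def Hf (P : Set (Fin d → ℝ)) (c : Fin d → ℤ) : Set (Fin d → ℝ) := {z | (2 : ℝ) • z + (-toR c) ∈ P}

/-- the vector `(v + c) / 2` -/
def hv2 (c v : Fin d → ℤ) : Fin d → ℤ := fun j => (v j + c j) / 2

theorem hv2_eq {c v : Fin d → ℤ} (h : ∀ j, Even (v j + c j)) : hv2 c v + hv2 c v = v + c := by
  funext j
  obtain ⟨r, hr⟩ := h j
  show (v j + c j) / 2 + (v j + c j) / 2 = v j + c j
  omega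

theorem even_pt (D : VD P) {c : Fin d → ℤ} (hA : ∀ a ∈ D.A, Even (a.1 ⬝ᵥ c + a.2)) :
    ∀ v ∈ D.Vt, ∀ j, Even (v j + c j) := by
  intro v hv j
  have h1 : ∀ i, Even (D.U v i ⬝ᵥ (v + c)) := by
    intro i
    obtain ⟨r, hr⟩ := hA _ (D.uA v hv i)
    simp only at hr
    refine ⟨r + D.U v i ⬝ᵥ v, ?_⟩
    rw [dotProduct_add]
    linarith
  have h2 := congrFun (D.spanZ hv (v + c)) j
  rw [Finset.sum_apply] at h2
  have h3 : v j + c j = ∑ i, ((D.U v i ⬝ᵥ (v + c)) • D.E v i) j := h2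
  rw [h3]
  refine Finset.even_sum _ fun i _ => ?_
  rw [Pi.smul_apply, smul_eq_mul]
  exact Even.mul_right (h1 i) _

theorem double_step (D : VD P) {c : Fin d → ℤ} (hc : ∀ v ∈ D.Vt, ∀ j, Even (v j + c j)) :
    ∀ v ∈ D.Vt, ∀ i, toR (v + (D.E v i + D.E v i)) ∈ P := by
  intro v hv i
  obtain ⟨w, hw0, hw1, hw2⟩ := D.combo (D.mem v hv i)
  have hsum : ∀ j, ∑ u ∈ D.Vt, w u * ((D.U v j ⬝ᵥ (u - v) : ℤ) : ℝ) = if j = i then 1 else 0 := by
    intro j
    have e1 : toR (D.E v i) = ∑ u ∈ D.Vt, w u • toR (u - v) := by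
      have e2 : ∑ u ∈ D.Vt, w u • toR (u - v) = ∑ u ∈ D.Vt, w u • toR u - ∑ u ∈ D.Vt, w u • toR v := by
        rw [← Finset.sum_sub_distrib]
        refine Finset.sum_congr rfl fun u _ => ?_
        rw [toR_sub, smul_sub]
      rw [e2, ← Finset.sum_smul, hw1, one_smul, ← hw2, toR_add, add_sub_cancel_left]
    have e3 : toR (D.U v j) ⬝ᵥ toR (D.E v i) = if j = i then 1 else 0 := by
      rw [toR_dot, D.dual v hv]
      split_ifs <;> simp
    rw [← e3, e1, dotProduct_sum]
    refine Finset.sum_congr rfl fun u _ => ?_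
    rw [dotProduct_smul, toR_dot, smul_eq_mul]
  have hcone : ∀ u ∈ D.Vt, ∀ j, 0 ≤ D.U v j ⬝ᵥ (u - v) := by
    intro u hu j
    have h := D.cone hv j (D.vmem hu)
    rw [← toR_sub, toR_dot] at h
    exact_mod_cast h
  obtain ⟨u, hu, hwu, hpos⟩ : ∃ u ∈ D.Vt, 0 < w u ∧ 0 < D.U v i ⬝ᵥ (u - v) := by
    by_contra hcon
    have h0 : ∑ u ∈ D.Vt, w u * ((D.U v i ⬝ᵥ (u - v) : ℤ) : ℝ) ≤ 0 := by
      refine Finset.sum_nonpos fun u hu => ?_
      by_contra hlt
      push Not at hlt
      apply hcon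
      refine ⟨u, hu, ?_, ?_⟩
      · rcases (hw0 u hu).eq_or_lt with h | h
        · rw [← h, zero_mul] at hlt
          exact absurd hlt (lt_irrefl _)
        · exact h
      · rcases (hcone u hu i).eq_or_lt with h | h
        · rw [← h, Int.cast_zero, mul_zero] at hlt
          exact absurd hlt (lt_irrefl _)
        · exact h
    rw [hsum i, if_pos rfl] at h0
    linarith
  have hoff : ∀ j, j ≠ i → D.U v j ⬝ᵥ (u - v) = 0 := by
    intro j hj
    have h0 := hsum j
    rw [if_neg hj] at h0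
    have h1 := (Finset.sum_eq_zero_iff_of_nonneg fun u hu => mul_nonneg (hw0 u hu)
      (by exact_mod_cast hcone u hu j)).1 h0 u hu
    rcases mul_eq_zero.1 h1 with h | h
    · exact absurd h hwu.ne'
    · exact_mod_cast h
  have huv : u - v = (D.U v i ⬝ᵥ (u - v)) • D.E v i := by
    conv_lhs => rw [D.spanZ hv (u - v)]
    refine Finset.sum_eq_single i (fun j _ hj => ?_) (fun h => absurd (Finset.mem_univ i) h)
    rw [hoff j hj, zero_smul]
  obtain ⟨s, hs⟩ : ∃ s, s = D.U v i ⬝ᵥ (u - v) := ⟨_, rfl⟩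
  rw [← hs] at huv hpos
  have heven : Even s := by
    rw [hs]
    have h1 : ∀ j, Even ((u - v) j) := by
      intro j
      obtain ⟨r1, hr1⟩ := hc u hu j
      obtain ⟨r2, hr2⟩ := hc v hv j
      refine ⟨r1 - r2, ?_⟩
      rw [Pi.sub_apply]
      omega
    unfold dotProduct
    refine Finset.even_sum _ fun j _ => ?_
    exact Even.mul_left (h1 j) _
  have hs2 : (2 : ℤ) ≤ s := by
    obtain ⟨r, hr⟩ := heven
    omega
  have hs2' : (2 : ℝ) ≤ (s : ℝ) := by exact_mod_cast hs2
  have e : toR (v + (D.E v i + D.E v i)) = (1 - 2 / (s : ℝ)) • toR v + (2 / (s : ℝ)) • toR u := by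
    have e1 : toR u = toR v + (s : ℝ) • toR (D.E v i) := by
      rw [← toR_zsmul, ← huv, ← toR_add]
      congr 1
      abel
    rw [e1, smul_add, smul_smul, div_mul_cancel₀ _ (by linarith : (s : ℝ) ≠ 0), toR_add, toR_add]
    module
  rw [e]
  refine D.convex (D.vmem hv) (D.vmem hu) ?_ ?_ (by ring)
  · rw [sub_nonneg, div_le_one (by linarith)]
    exact hs2'
  · exact div_nonneg (by norm_num) (by linarith)

theorem Hf_vd (D : VD P) {c : Fin d → ℤ} (hA : ∀ a ∈ D.A, Even (a.1 ⬝ᵥ c + a.2)) :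
    Nonempty (VD (Hf P c)) := by
  classical
  have hc := even_pt D hA
  have hE2 := double_step D hc
  have hb : ∀ a ∈ D.A, (a.2 - a.1 ⬝ᵥ c) / 2 + (a.2 - a.1 ⬝ᵥ c) / 2 = a.2 - a.1 ⬝ᵥ c := by
    intro a ha
    obtain ⟨r, hr⟩ := hA a ha
    omega
  have hmemH : ∀ p : Fin d → ℤ, toR p ∈ Hf P c ↔ toR (p + p - c) ∈ P := by
    intro p
    unfold Hf
    rw [Set.mem_setOf_eq, toR_sub, toR_add, two_smul, sub_eq_add_neg]
  have hr : ∀ y : Fin d → ℝ, y ∈ Hf P c ↔
      ∀ a ∈ D.A.image (fun a => (a.1, (a.2 - a.1 ⬝ᵥ c) / 2)), 0 ≤ toR a.1 ⬝ᵥ y + (a.2 : ℝ) := by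
    intro y
    unfold Hf
    rw [Set.mem_setOf_eq, D.hrep, Finset.forall_mem_image]
    refine forall₂_congr fun a ha => ?_
    rw [dotProduct_add, dotProduct_smul, dotProduct_neg, toR_dot, smul_eq_mul]
    have h1 : (((a.2 - a.1 ⬝ᵥ c) / 2 : ℤ) : ℝ) + (((a.2 - a.1 ⬝ᵥ c) / 2 : ℤ) : ℝ) =
        (a.2 : ℝ) - ((a.1 ⬝ᵥ c : ℤ) : ℝ) := by exact_mod_cast hb a ha
    simp only
    constructor
    · intro h
      linarith
    · intro h
      linarith
  obtain ⟨D', -⟩ : ∃ D' : VD (Hf P c), D'.A = D.A.image (fun a => (a.1, (a.2 - a.1 ⬝ᵥ c) / 2)) := by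
    refine VD.of_loc (Vt := D.Vt.image (hv2 c)) (D.ne.image _) ?_ hr ?_ ?_
    · have e1 : Hf P c = (fun y => (1 / 2 : ℝ) • y + (1 / 2 : ℝ) • toR c) '' P := by
        ext y
        unfold Hf
        rw [Set.mem_setOf_eq, Set.mem_image]
        constructor
        · intro h
          refine ⟨_, h, ?_⟩
          rw [smul_add, smul_smul, smul_neg, neg_add_cancel_right]
          norm_num
        · rintro ⟨z, hz, rfl⟩
          have : (2 : ℝ) • ((1 / 2 : ℝ) • z + (1 / 2 : ℝ) • toR c) + -toR c = z := by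
            rw [smul_add, smul_smul, smul_smul]
            norm_num
          rw [this]
          exact hz
      have e2 : toR '' ((D.Vt.image (hv2 c) : Finset (Fin d → ℤ)) : Set (Fin d → ℤ)) =
          (fun y => (1 / 2 : ℝ) • y + (1 / 2 : ℝ) • toR c) '' (toR '' (D.Vt : Set (Fin d → ℤ))) := by
        rw [Finset.coe_image, Set.image_image, Set.image_image]
        refine Set.image_congr fun v hv => ?_
        have h1 := congrArg toR (hv2_eq (hc v hv))
        rw [toR_add, toR_add] at h1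
        show toR (hv2 c v) = (1 / 2 : ℝ) • toR v + (1 / 2 : ℝ) • toR c
        rw [← smul_add, ← h1, ← two_smul ℝ, smul_smul]
        norm_num
      rw [e1, e2]
      exact (congrArg (fun Z => (fun y => (1 / 2 : ℝ) • y + (1 / 2 : ℝ) • toR c) '' Z) D.hull).trans
        (image_hull _ _ _)
    · intro a ha
      obtain ⟨b, hb, rfl⟩ := Finset.mem_image.1 ha
      exact D.nz b hb
    · intro p hp
      obtain ⟨v, hv, rfl⟩ := Finset.mem_image.1 hp
      have hvv := hv2_eq (hc v hv)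
      have hdd : ∀ a : Fin d → ℤ, a ⬝ᵥ hv2 c v + a ⬝ᵥ hv2 c v = a ⬝ᵥ v + a ⬝ᵥ c := by
        intro a
        rw [← dotProduct_add, hvv, dotProduct_add]
      refine ⟨D.E v, D.U v, D.dual v hv, fun i => ?_, fun i => ?_, ?_⟩
      · rw [hmemH]
        have e : hv2 c v + D.E v i + (hv2 c v + D.E v i) - c = v + (D.E v i + D.E v i) := by
          have : hv2 c v + D.E v i + (hv2 c v + D.E v i) - c =
              (hv2 c v + hv2 c v) + (D.E v i + D.E v i) - c := by abel
          rw [this, hvv]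
          abel
        rw [e]
        exact hE2 v hv i
      · refine Finset.mem_image.2 ⟨_, D.uA v hv i, Prod.ext rfl ?_⟩
        simp only
        have h1 := hb _ (D.uA v hv i)
        simp only at h1
        have h2 := hdd (D.U v i)
        omega
      · intro a ha hz
        obtain ⟨b, hb', rfl⟩ := Finset.mem_image.1 ha
        simp only at hz ⊢
        have h1 := hb b hb'
        have h2 := hdd b.1
        exact D.tight v hv b hb' (by omega)
  exact ⟨D'⟩

end Pool.Agent.H19.FE
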