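import Pool.Agent.H19.FE.Wd
import Pool.Agent.H19.FE.Sc

/-!
# Reduction to linear forms with values `1` and `-1`

Wedges over facets lower the distances of an integer point of `2 P` to the facets to one.
-/

set_option autoImplicit false
set_option linter.all false

namespace Pool.Agent.H19.FE

open H66OD Matrix

variable {d : ℕ} {P : Set (Fin d → ℝ)}

/-- the total excess of the distances of `x` to the facets of `2 P` -/
def mu (A : Finset ((Fin d → ℤ) × ℤ)) (x : Fin d → ℤ) : ℕ :=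
  ∑ a ∈ A, (a.1 ⬝ᵥ x + 2 * a.2 - 1).toNat

theorem mu_WA {A : Finset ((Fin d → ℤ) × ℤ)} {f : (Fin d → ℤ) × ℤ} (hf : f ∈ A)
    {x : Fin d → ℤ} (h2 : 2 ≤ f.1 ⬝ᵥ x + 2 * f.2) :
    mu (WA A f) (vecCons 1 x) + 1 = mu A x := by
  classical
  unfold mu WA
  have n1 : ((vecCons 1 (0 : Fin d → ℤ), (0 : ℤ)) : (Fin (d + 1) → ℤ) × ℤ) ∉
      insert (vecCons (-1) f.1, f.2) ((A.erase f).image (fun a => (vecCons 0 a.1, a.2))) := by
    intro h
    rcases Finset.mem_insert.1 h with h | h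
    · have := congrFun (congrArg Prod.fst h) 0
      simp at this
    · obtain ⟨a, -, h⟩ := Finset.mem_image.1 h
      have := congrFun (congrArg Prod.fst h) 0
      simp at this
  have n2 : ((vecCons (-1) f.1, f.2) : (Fin (d + 1) → ℤ) × ℤ) ∉
      ((A.erase f).image (fun a => (vecCons 0 a.1, a.2))) := by
    intro h
    obtain ⟨a, -, h⟩ := Finset.mem_image.1 h
    have := congrFun (congrArg Prod.fst h) 0
    simp at this
  rw [Finset.sum_insert n1, Finset.sum_insert n2, Finset.sum_image]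
  · simp only [dot_consZ]
    rw [← Finset.add_sum_erase A _ hf, zero_dotProduct]
    have e : ∀ a : (Fin d → ℤ) × ℤ, (0 * 1 + a.1 ⬝ᵥ x + 2 * a.2 - 1).toNat =
        (a.1 ⬝ᵥ x + 2 * a.2 - 1).toNat := by
      intro a
      rw [zero_mul, zero_add]
    simp only [e]
    omega
  · intro a _ b _ h
    have h1 := congrArg Prod.fst h
    have h2 := congrArg Prod.snd h
    simp only at h1 h2
    refine Prod.ext ?_ h2
    funext i
    have := congrFun h1 i.succ
    simpa using this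

theorem card_WA {A : Finset ((Fin d → ℤ) × ℤ)} {f : (Fin d → ℤ) × ℤ} (hf : f ∈ A) :
    (WA A f).card ≤ A.card + 1 := by
  classical
  unfold WA
  have h1 := Finset.card_insert_le (vecCons 1 (0 : Fin d → ℤ), (0 : ℤ))
    (insert (vecCons (-1) f.1, f.2) ((A.erase f).image (fun a => (vecCons 0 a.1, a.2))))
  have h2 := Finset.card_insert_le ((vecCons (-1) f.1, f.2) : (Fin (d + 1) → ℤ) × ℤ)
    ((A.erase f).image (fun a => (vecCons 0 a.1, a.2)))
  have h3 : ((A.erase f).image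
      (fun a => ((vecCons 0 a.1, a.2) : (Fin (d + 1) → ℤ) × ℤ))).card ≤ (A.erase f).card :=
    Finset.card_image_le
  have h4 := Finset.card_erase_add_one hf
  omega

theorem card_TA {A : Finset ((Fin d → ℤ) × ℤ)} {N c : ℤ} : (TA A N c).card ≤ A.card + 2 := by
  classical
  unfold TA
  have h1 := Finset.card_insert_le (vecCons 1 (0 : Fin d → ℤ), (0 : ℤ))
    (insert (vecCons (-1) 0, c) (A.image (fun a => (vecCons (N * a.2) a.1, a.2))))
  have h2 := Finset.card_insert_le ((vecCons (-1) 0, c) : (Fin (d + 1) → ℤ) × ℤ)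
    (A.image (fun a => (vecCons (N * a.2) a.1, a.2)))
  have h3 : (A.image
      (fun a => ((vecCons (N * a.2) a.1, a.2) : (Fin (d + 1) → ℤ) × ℤ))).card ≤ A.card :=
    Finset.card_image_le
  omega

theorem card_FA {n : ℕ} {P : Set (Fin (n + 1) → ℝ)} (D : VD P) {v : Fin (n + 1) → ℤ}
    (hv : v ∈ D.Vt) (i : Fin (n + 1)) : (FA D v i).card + 1 ≤ D.A.card := by
  classical
  have hsub : FA D v i ⊆ (D.A.erase (D.U v i, -(D.U v i ⬝ᵥ v))).image
      (fun a => ((fun l => a.1 ⬝ᵥ D.E v (i.succAbove l)), a.1 ⬝ᵥ v + a.2)) := by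
    intro b hb
    obtain ⟨⟨a, ha, rfl⟩, hne⟩ := mem_FA.1 hb
    refine Finset.mem_image.2 ⟨a, Finset.mem_erase.2 ⟨?_, ha⟩, rfl⟩
    rintro rfl
    apply hne
    funext l
    show D.U v i ⬝ᵥ D.E v (i.succAbove l) = 0
    rw [D.dual v hv, if_neg (Fin.succAbove_ne i l).symm]
  have h1 := (Finset.card_le_card hsub).trans Finset.card_image_le
  have h2 := Finset.card_erase_add_one (D.uA v hv i)
  omega

theorem wedge_one {A : Finset ((Fin d → ℤ) × ℤ)} {f : (Fin d → ℤ) × ℤ} (hf : f ∈ A)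
    {x : Fin d → ℤ} (h2 : 2 ≤ f.1 ⬝ᵥ x + 2 * f.2) (h : ∀ a ∈ A, 1 ≤ a.1 ⬝ᵥ x + 2 * a.2) :
    ∀ b ∈ WA A f, 1 ≤ b.1 ⬝ᵥ (vecCons 1 x) + 2 * b.2 := by
  intro b hb
  rcases mem_WA.1 hb with rfl | rfl | ⟨a, ha, haf, rfl⟩
  · simp only [dot_consZ]
    rw [zero_dotProduct]
    norm_num
  · simp only [dot_consZ]
    linarith
  · simp only [dot_consZ]
    have := h a ha
    linarith

/-- projection of a decomposition from the wedge -/
theorem dec_of_wedge {f : (Fin d → ℤ) × ℤ} {x : Fin d → ℤ} (h : Dec (W P f) (vecCons 1 x)) :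
    Dec P x := by
  obtain ⟨p, q, hp, hq, hpq⟩ := h
  refine ⟨vecTail p, vecTail q, ?_, ?_, ?_⟩
  · rw [← tail_toR]
    exact hp.1
  · rw [← tail_toR]
    exact hq.1
  · funext i
    have := congrFun hpq i.succ
    simpa [vecTail] using this

/-- the splitting property for polytopes with at most `d + r` facets -/
def PhiR (r : ℕ) : Prop := ∀ (d : ℕ) (A : Finset (Fin d → ℤ)), A.card ≤ d + r →
  IsSmooth (DualPolytope A) → OddSplit A

theorem dec_base (S : ∀ (d : ℕ) (P : Set (Fin d → ℝ)), VD P → IsSmooth P) {r : ℕ} (H : PhiR r)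
    (D : VD P) (hcard : D.A.card ≤ d + r) {x : Fin d → ℤ}
    (h : ∀ a ∈ D.A, a.1 ⬝ᵥ x + 2 * a.2 = 1) : Dec P x := by
  classical
  obtain ⟨D2⟩ := Db_vd D x
  have hQ : DualPolytope (D.A.image (fun a => -a.1)) = Db P x := by
    ext y
    rw [Db_hrep D]
    unfold DualPolytope
    rw [Set.mem_setOf_eq, Finset.forall_mem_image]
    refine forall₂_congr fun a ha => ?_
    rw [h a ha, toR_neg, neg_dotProduct, Int.cast_one]
    constructor
    · intro h
      linarith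
    · intro h
      linarith
  have hsm : IsSmooth (DualPolytope (D.A.image (fun a => -a.1))) := by
    rw [hQ]
    exact S d _ D2
  obtain ⟨q, hq⟩ := H d (D.A.image (fun a => -a.1)) (Finset.card_image_le.trans hcard) hsm
    ⟨x, fun b hb => by
      obtain ⟨a, ha, rfl⟩ := Finset.mem_image.1 hb
      refine ⟨a.2 - 1, ?_⟩
      rw [neg_dotProduct]
      have := h a ha
      linarith⟩
  have hq' : ∀ a ∈ D.A, a.1 ⬝ᵥ q = 1 ∨ a.1 ⬝ᵥ q = -1 := by
    intro a ha
    rcases hq _ (Finset.mem_image_of_mem _ ha) with h1 | h1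
    · right
      rw [neg_dotProduct] at h1
      linarith
    · left
      rw [neg_dotProduct] at h1
      linarith
  have hev : ∀ j, Even (x j + q j) := by
    obtain ⟨v, hv⟩ := D.ne
    intro j
    have h1 : ∀ i, Even (D.U v i ⬝ᵥ (x + q)) := by
      intro i
      have h2 := h _ (D.uA v hv i)
      simp only at h2
      rw [dotProduct_add]
      rcases hq' _ (D.uA v hv i) with h3 | h3
      · simp only at h3
        exact ⟨1 - -(D.U v i ⬝ᵥ v), by linarith⟩
      · simp only at h3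
        exact ⟨-(-(D.U v i ⬝ᵥ v)), by linarith⟩
    have h2 := congrFun (D.spanZ hv (x + q)) j
    rw [Finset.sum_apply] at h2
    have h3 : x j + q j = ∑ i, ((D.U v i ⬝ᵥ (x + q)) • D.E v i) j := h2
    rw [h3]
    refine Finset.even_sum _ fun i _ => ?_
    rw [Pi.smul_apply, smul_eq_mul]
    exact Even.mul_right (h1 i) _
  have hev' : ∀ j, Even (x j + (-q) j) := by
    intro j
    obtain ⟨s, hs⟩ := hev j
    refine ⟨s - q j, ?_⟩
    rw [Pi.neg_apply]
    linarith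
  have e1 := hv2_eq (c := q) (v := x) hev
  have e2 := hv2_eq (c := -q) (v := x) hev'
  refine ⟨hv2 q x, hv2 (-q) x, ?_, ?_, ?_⟩
  · rw [D.hrep]
    intro a ha
    rw [toR_dot]
    have h1 : a.1 ⬝ᵥ hv2 q x + a.1 ⬝ᵥ hv2 q x = a.1 ⬝ᵥ x + a.1 ⬝ᵥ q := by
      rw [← dotProduct_add, e1, dotProduct_add]
    have h2 := h a ha
    have h3 : 0 ≤ a.1 ⬝ᵥ hv2 q x + a.2 := by
      rcases hq' a ha with h4 | h4 <;> omega
    exact_mod_cast h3
  · rw [D.hrep]
    intro a ha
    rw [toR_dot]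
    have h1 : a.1 ⬝ᵥ hv2 (-q) x + a.1 ⬝ᵥ hv2 (-q) x = a.1 ⬝ᵥ x - a.1 ⬝ᵥ q := by
      rw [← dotProduct_add, e2, dotProduct_add, dotProduct_neg]
      ring
    have h2 := h a ha
    have h3 : 0 ≤ a.1 ⬝ᵥ hv2 (-q) x + a.2 := by
      rcases hq' a ha with h4 | h4 <;> omega
    exact_mod_cast h3
  · funext j
    have h1 : hv2 q x j + hv2 q x j = x j + q j := congrFun e1 j
    have h2 : hv2 (-q) x j + hv2 (-q) x j = x j + -(q j) := congrFun e2 j
    rw [Pi.add_apply]
    omega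

theorem dec_ind (S : ∀ (d : ℕ) (P : Set (Fin d → ℝ)), VD P → IsSmooth P) {r : ℕ} (H : PhiR r) :
    ∀ (n d : ℕ) (P : Set (Fin d → ℝ)) (D : VD P), D.A.card ≤ d + r → ∀ x : Fin d → ℤ,
      (∀ a ∈ D.A, 1 ≤ a.1 ⬝ᵥ x + 2 * a.2) → mu D.A x = n → Dec P x := by
  intro n
  induction n with
  | zero =>
    intro d P D hcard x h1 hn
    refine dec_base S H D hcard fun a ha => ?_
    have h2 := (Finset.sum_eq_zero_iff.1 hn) a ha
    have h3 := h1 a ha
    rw [Int.toNat_eq_zero] at h2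
    linarith
  | succ n ih =>
    intro d P D hcard x h1 hn
    obtain ⟨f, hf, h2⟩ : ∃ f ∈ D.A, 2 ≤ f.1 ⬝ᵥ x + 2 * f.2 := by
      by_contra hcon
      have h3 : mu D.A x = 0 := by
        refine Finset.sum_eq_zero fun a ha => ?_
        have h4 : ¬ 2 ≤ a.1 ⬝ᵥ x + 2 * a.2 := fun h4 => hcon ⟨a, ha, h4⟩
        rw [Int.toNat_eq_zero]
        omega
      omega
    obtain ⟨D', hD'⟩ := wedge D hf
    refine dec_of_wedge (f := f) (ih (d + 1) (W P f) D' ?_ (vecCons 1 x) ?_ ?_)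
    · rw [hD']
      have := card_WA hf
      omega
    · rw [hD']
      exact wedge_one hf h2 h1
    · rw [hD']
      have := mu_WA hf h2
      omega

theorem sum2_all (S : ∀ (d : ℕ) (P : Set (Fin d → ℝ)), VD P → IsSmooth P) {r : ℕ} (H : PhiR r) :
    ∀ (d : ℕ) (P : Set (Fin d → ℝ)) (D : VD P), D.A.card ≤ d + r → Sum2 P := by
  intro d
  induction d with
  | zero =>
    intro P D hcard x hx
    obtain ⟨v, hv⟩ := D.ne
    have hall : ∀ z : Fin 0 → ℤ, toR z ∈ P := fun z => by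
      have : z = v := Subsingleton.elim _ _
      rw [this]
      exact D.vmem hv
    exact ⟨x, 0, hall _, hall _, (add_zero x).symm⟩
  | succ d ih =>
    rintro P D hcard x ⟨y, hy, hxy⟩
    have hr : ∀ a ∈ D.A, 2 * (toR a.1 ⬝ᵥ y + (a.2 : ℝ)) = ((a.1 ⬝ᵥ x + 2 * a.2 : ℤ) : ℝ) := by
      intro a ha
      push_cast
      rw [← toR_dot, hxy, dotProduct_smul, smul_eq_mul]
      ring
    have hr0 : ∀ a ∈ D.A, 0 ≤ a.1 ⬝ᵥ x + 2 * a.2 := by
      intro a ha
      have h1 := (D.hrep y).1 hy a ha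
      have h2 := hr a ha
      have h3 : (0 : ℝ) ≤ ((a.1 ⬝ᵥ x + 2 * a.2 : ℤ) : ℝ) := by
        rw [← h2]
        linarith
      exact_mod_cast h3
    by_cases hz : ∃ a ∈ D.A, a.1 ⬝ᵥ x + 2 * a.2 = 0
    · obtain ⟨a, ha, ha0⟩ := hz
      -- the inequality is tight at `y`, hence at a vertex
      have hy0 : toR a.1 ⬝ᵥ y + (a.2 : ℝ) = 0 := by
        have h2 := hr a ha
        rw [ha0, Int.cast_zero] at h2
        linarith
      obtain ⟨c, hc0, hc1, hc2⟩ := D.combo hy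
      have hsum : ∑ w ∈ D.Vt, c w * ((a.1 ⬝ᵥ w + a.2 : ℤ) : ℝ) = 0 := by
        have e : toR a.1 ⬝ᵥ y + (a.2 : ℝ) = ∑ w ∈ D.Vt, c w * ((a.1 ⬝ᵥ w + a.2 : ℤ) : ℝ) := by
          rw [hc2, dotProduct_sum]
          have e2 : (a.2 : ℝ) = ∑ w ∈ D.Vt, c w * (a.2 : ℝ) := by
            rw [← Finset.sum_mul, hc1, one_mul]
          conv_lhs => rw [e2]
          rw [← Finset.sum_add_distrib]
          refine Finset.sum_congr rfl fun w _ => ?_
          rw [dotProduct_smul, toR_dot, smul_eq_mul]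
          push_cast
          ring
        rw [← e]
        exact hy0
      have hz0 := (Finset.sum_eq_zero_iff_of_nonneg fun w hw => mul_nonneg (hc0 w hw)
        (by exact_mod_cast D.nn ha (D.vmem hw))).1 hsum
      obtain ⟨w, hw, hcw⟩ : ∃ w ∈ D.Vt, c w ≠ 0 := by
        by_contra hcon
        push Not at hcon
        rw [Finset.sum_eq_zero hcon] at hc1
        exact zero_ne_one hc1
      have hw0 : a.1 ⬝ᵥ w + a.2 = 0 := by
        rcases mul_eq_zero.1 (hz0 w hw) with h | h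
        · exact absurd h hcw
        · exact_mod_cast h
      obtain ⟨i, hi⟩ := D.tight w hw a ha hw0
      obtain ⟨D', hD'⟩ := facet D hw i
      refine dec_of_facet D hw i hy hxy ?_ (ih _ D' ?_)
      · rw [hi, dotProduct_sub, dotProduct_add]
        linarith
      · rw [hD']
        have := card_FA D hw i
        omega
    · refine dec_ind S H _ _ P D hcard x (fun a ha => ?_) rfl
      have h1 := hr0 a ha
      have h2 : a.1 ⬝ᵥ x + 2 * a.2 ≠ 0 := fun h => hz ⟨a, ha, h⟩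
      omega

/-- heights zero and one of the truncated cone -/
theorem step_of_T {N c : ℤ} (hN : 1 ≤ N) (hc : 1 ≤ c) (h : Sum2 (T P N c)) (x : Fin d → ℤ)
    (y : Fin d → ℝ) (hy : y ∈ P) (hxy : toR x = ((N : ℝ) + 2) • y) :
    ∃ p : Fin d → ℤ, toR p ∈ P ∧ ∃ z ∈ P, toR (x - p) = ((N : ℝ) + 1) • z := by
  have hc' : (1 : ℝ) ≤ (c : ℝ) := by exact_mod_cast hc
  have h1 : vecCons (1 / 2 : ℝ) ((1 + (N : ℝ) * (1 / 2)) • y) ∈ T P N c := by
    refine ⟨by simp, ?_, y, hy, ?_⟩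
    · rw [Matrix.cons_val_zero]
      linarith
    · rw [Matrix.cons_val_zero, tail_cons']
  have h2 : toR (vecCons 1 x) = (2 : ℝ) • vecCons (1 / 2 : ℝ) ((1 + (N : ℝ) * (1 / 2)) • y) := by
    rw [toR_cons, hxy]
    funext i
    refine Fin.cases ?_ (fun j => ?_) i
    · simp
    · simp only [Matrix.cons_val_succ, Pi.smul_apply, smul_eq_mul]
      ring
  obtain ⟨p, q, hp, hq, hpq⟩ := h _ ⟨_, h1, h2⟩
  have h0 : (1 : ℤ) = p 0 + q 0 := by
    have := congrFun hpq 0
    simpa using this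
  have ht : x = vecTail p + vecTail q := by
    funext i
    have := congrFun hpq i.succ
    simpa [vecTail] using this
  have hp0 : (0 : ℤ) ≤ p 0 := by
    have := hp.1
    rw [toR_apply] at this
    exact_mod_cast this
  have hq0 : (0 : ℤ) ≤ q 0 := by
    have := hq.1
    rw [toR_apply] at this
    exact_mod_cast this
  have key : ∀ r : Fin (d + 1) → ℤ, toR r ∈ T P N c → r 0 = 0 → toR (vecTail r) ∈ P := by
    rintro r ⟨-, -, z, hz, hrz⟩ hr0
    rw [tail_toR, toR_apply, hr0] at hrz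
    rw [hrz]
    simpa using hz
  have key1 : ∀ r : Fin (d + 1) → ℤ, toR r ∈ T P N c → r 0 = 1 →
      ∃ z ∈ P, toR (vecTail r) = ((N : ℝ) + 1) • z := by
    rintro r ⟨-, -, z, hz, hrz⟩ hr0
    rw [tail_toR, toR_apply, hr0] at hrz
    refine ⟨z, hz, ?_⟩
    rw [hrz]
    congr 1
    push_cast
    ring
  rcases (show p 0 = 0 ∨ q 0 = 0 by omega) with h3 | h3
  · refine ⟨vecTail p, key p hp h3, ?_⟩
    rw [ht, add_sub_cancel_left]
    exact key1 q hq (by omega)
  · refine ⟨vecTail q, key q hq h3, ?_⟩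
    rw [ht, add_sub_cancel_right]
    exact key1 p hp (by omega)

theorem step_idp (h : ∀ (k : ℕ), 1 ≤ k → ∀ (x : Fin d → ℤ) (y : Fin d → ℝ), y ∈ P →
    toR x = ((k : ℝ) + 1) • y → ∃ p : Fin d → ℤ, toR p ∈ P ∧ ∃ z ∈ P, toR (x - p) = (k : ℝ) • z) :
    HasIDP P := by
  intro k hk
  induction k, hk using Nat.le_induction with
  | base =>
    rintro x ⟨y, hy, hxy⟩
    rw [Nat.cast_one, one_smul] at hxy
    refine ⟨fun _ => x, fun _ => ?_, ?_⟩
    · rw [hxy]
      exact hy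
    · simp
  | succ k hk ih =>
    rintro x ⟨y, hy, hxy⟩
    rw [Nat.cast_add, Nat.cast_one] at hxy
    obtain ⟨p, hp, z, hz, hpz⟩ := h k hk x y hy hxy
    obtain ⟨f, hf, hs⟩ := ih (x - p) ⟨z, hz, hpz⟩
    refine ⟨Fin.cons p f, fun i => ?_, ?_⟩
    · refine Fin.cases ?_ (fun j => ?_) i
      · rw [Fin.cons_zero]
        exact hp
      · rw [Fin.cons_succ]
        exact hf j
    · rw [Fin.sum_univ_succ, Fin.cons_zero]
      simp only [Fin.cons_succ]
      rw [← hs]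
      abel

/-- all steps from sums of two points -/
theorem idp_of_sum2 (D : VD P) (h0 : Sum2 P) (h1 : ∀ N : ℤ, 1 ≤ N → Sum2 (T P N 1)) : HasIDP P := by
  refine step_idp fun k hk x y hy hxy => ?_
  rcases hk.eq_or_lt with h2 | h2
  · subst h2
    obtain ⟨p, q, hp, hq, hpq⟩ := h0 x ⟨y, hy, by
      rw [hxy]
      norm_num⟩
    refine ⟨p, hp, toR q, hq, ?_⟩
    rw [hpq, add_sub_cancel_left, Nat.cast_one, one_smul]
  · have hk2 : (1 : ℤ) ≤ (k : ℤ) - 1 := by omega
    obtain ⟨p, hp, z, hz, h3⟩ := step_of_T hk2 le_rfl (h1 _ hk2) x y hy (by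
      rw [hxy]
      congr 1
      push_cast
      ring)
    refine ⟨p, hp, z, hz, ?_⟩
    rw [h3]
    congr 1
    push_cast
    ring

theorem sum2_of_idp (h : HasIDP P) : Sum2 P := by
  rintro x ⟨y, hy, hxy⟩
  obtain ⟨f, hf, hs⟩ := h 2 (by norm_num) x ⟨y, hy, by exact_mod_cast hxy⟩
  refine ⟨f 0, f 1, hf 0, hf 1, ?_⟩
  rw [hs, Fin.sum_univ_two]

end Pool.Agent.H19.FE
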