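import Pool.Agent.H19.FE.Loc

/-!
# Truncated cones

`T P N c = {(t, x) : 0 ≤ t ≤ c, x ∈ (1 + N t) P}`.
-/

set_option autoImplicit false
set_option linter.all false

namespace Pool.Agent.H19.FE

open H66OD Matrix

variable {d : ℕ} {P : Set (Fin d → ℝ)}

/-- the truncated cone -/
def T (P : Set (Fin d → ℝ)) (N c : ℤ) : Set (Fin (d + 1) → ℝ) :=
  {z | 0 ≤ z 0 ∧ z 0 ≤ (c : ℝ) ∧ ∃ y ∈ P, vecTail z = (1 + (N : ℝ) * z 0) • y}

open Classical in
/-- the inequalities of the truncated cone -/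
noncomputable def TA (A : Finset ((Fin d → ℤ) × ℤ)) (N c : ℤ) : Finset ((Fin (d + 1) → ℤ) × ℤ) :=
  insert (vecCons 1 0, 0) (insert (vecCons (-1) 0, c)
    (A.image (fun a => (vecCons (N * a.2) a.1, a.2))))

theorem mem_TA {A : Finset ((Fin d → ℤ) × ℤ)} {N c : ℤ}
    {b : (Fin (d + 1) → ℤ) × ℤ} : b ∈ TA A N c ↔ b = (vecCons 1 0, 0) ∨ b = (vecCons (-1) 0, c) ∨
      ∃ a ∈ A, b = (vecCons (N * a.2) a.1, a.2) := by
  classical
  unfold TA
  rw [Finset.mem_insert, Finset.mem_insert, Finset.mem_image]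
  refine or_congr Iff.rfl (or_congr Iff.rfl ⟨?_, ?_⟩)
  · rintro ⟨a, ha, rfl⟩
    exact ⟨a, ha, rfl⟩
  · rintro ⟨a, ha, rfl⟩
    exact ⟨a, ha, rfl⟩

theorem hrep_cons (z : Fin (d + 1) → ℝ) (t : ℤ) (a : Fin d → ℤ) :
    toR (vecCons t a) ⬝ᵥ z = (t : ℝ) * z 0 + toR a ⬝ᵥ vecTail z := by
  have e : z = vecCons (z 0) (vecTail z) := (head_tail z).symm
  conv_lhs => rw [e]
  rw [toR_cons, dot_cons]

theorem T_aux (D : VD P) {M : ℝ} (hM : 0 < M) (x : Fin d → ℝ) :
    (∃ y ∈ P, x = M • y) ↔ ∀ a ∈ D.A, 0 ≤ toR a.1 ⬝ᵥ x + M * (a.2 : ℝ) := by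
  constructor
  · rintro ⟨y, hy, rfl⟩ a ha
    rw [dotProduct_smul, smul_eq_mul, ← mul_add]
    exact mul_nonneg hM.le ((D.hrep y).1 hy a ha)
  · intro h
    refine ⟨M⁻¹ • x, (D.hrep _).2 fun a ha => ?_, by rw [smul_inv_smul₀ hM.ne']⟩
    rw [dotProduct_smul, smul_eq_mul]
    have h1 := mul_nonneg (inv_nonneg.2 hM.le) (h a ha)
    rw [mul_add, inv_mul_cancel_left₀ hM.ne'] at h1
    exact h1

theorem T_hrep (D : VD P) {N c : ℤ} (hN : 0 ≤ N) (z : Fin (d + 1) → ℝ) :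
    z ∈ T P N c ↔ ∀ b ∈ TA D.A N c, 0 ≤ toR b.1 ⬝ᵥ z + (b.2 : ℝ) := by
  have hN' : (0 : ℝ) ≤ (N : ℝ) := by exact_mod_cast hN
  constructor
  · rintro ⟨hz1, hz2, hz3⟩ b hb
    have hM : 0 < 1 + (N : ℝ) * z 0 := by
      have := mul_nonneg hN' hz1
      linarith
    rcases mem_TA.1 hb with rfl | rfl | ⟨a, ha, rfl⟩
    · simp only
      rw [hrep_cons, toR_zero, zero_dotProduct]
      push_cast
      linarith
    · simp only
      rw [hrep_cons, toR_zero, zero_dotProduct]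
      push_cast
      linarith
    · simp only
      rw [hrep_cons]
      have h1 := (T_aux D hM _).1 hz3 a ha
      push_cast
      linarith
  · intro h
    have g1 := h _ (mem_TA.2 (Or.inl rfl))
    have g2 := h _ (mem_TA.2 (Or.inr (Or.inl rfl)))
    simp only at g1 g2
    rw [hrep_cons, toR_zero, zero_dotProduct] at g1 g2
    push_cast at g1 g2
    have hz1 : 0 ≤ z 0 := by linarith
    have hM : 0 < 1 + (N : ℝ) * z 0 := by
      have := mul_nonneg hN' hz1
      linarith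
    refine ⟨hz1, by linarith, (T_aux D hM _).2 fun a ha => ?_⟩
    have g3 := h _ (mem_TA.2 (Or.inr (Or.inr ⟨a, ha, rfl⟩)))
    simp only at g3
    rw [hrep_cons] at g3
    push_cast at g3
    linarith

theorem T_int (D : VD P) {N c : ℤ} (hN : 0 ≤ N) {t : ℤ} {x : Fin d → ℤ} :
    toR (vecCons t x) ∈ T P N c ↔
      0 ≤ t ∧ t ≤ c ∧ ∀ a ∈ D.A, 0 ≤ a.1 ⬝ᵥ x + (1 + N * t) * a.2 := by
  have hN' : (0 : ℝ) ≤ (N : ℝ) := by exact_mod_cast hN
  rw [toR_cons]
  unfold T
  rw [Set.mem_setOf_eq, tail_cons', Matrix.cons_val_zero]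
  constructor
  · rintro ⟨h1, h2, h3⟩
    have h1' : 0 ≤ t := by exact_mod_cast h1
    have hM : 0 < 1 + (N : ℝ) * (t : ℝ) := by
      have := mul_nonneg hN' h1
      linarith
    refine ⟨h1', by exact_mod_cast h2, fun a ha => ?_⟩
    have h4 := (T_aux D hM _).1 h3 a ha
    rw [toR_dot] at h4
    exact_mod_cast h4
  · rintro ⟨h1, h2, h3⟩
    have h1' : (0 : ℝ) ≤ (t : ℝ) := by exact_mod_cast h1
    have hM : 0 < 1 + (N : ℝ) * (t : ℝ) := by
      have := mul_nonneg hN' h1'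
      linarith
    refine ⟨h1', by exact_mod_cast h2, (T_aux D hM _).2 fun a ha => ?_⟩
    rw [toR_dot]
    exact_mod_cast h3 a ha

theorem convex_of_hrep {n : ℕ} {Q : Set (Fin n → ℝ)} {B : Finset ((Fin n → ℤ) × ℤ)}
    (h : ∀ x : Fin n → ℝ, x ∈ Q ↔ ∀ a ∈ B, 0 ≤ toR a.1 ⬝ᵥ x + (a.2 : ℝ)) : Convex ℝ Q := by
  intro x hx y hy a b ha hb hab
  rw [h] at hx hy ⊢
  intro c hc
  rw [dotProduct_add, dotProduct_smul, dotProduct_smul, smul_eq_mul, smul_eq_mul]
  have e : (c.2 : ℝ) = a * c.2 + b * c.2 := by rw [← add_mul, hab, one_mul]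
  rw [e]
  have h1 := mul_nonneg ha (hx c hc)
  have h2 := mul_nonneg hb (hy c hc)
  linarith

open Classical in
/-- the vertices of the truncated cone -/
noncomputable def TV (D : VD P) (N c : ℤ) : Finset (Fin (d + 1) → ℤ) :=
  D.Vt.image (fun v => vecCons 0 v) ∪ D.Vt.image (fun v => vecCons c ((1 + N * c) • v))

theorem mem_TV {D : VD P} {N c : ℤ} {p : Fin (d + 1) → ℤ} :
    p ∈ TV D N c ↔ ∃ v ∈ D.Vt, p = vecCons 0 v ∨ p = vecCons c ((1 + N * c) • v) := by
  classical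
  unfold TV
  rw [Finset.mem_union, Finset.mem_image, Finset.mem_image]
  constructor
  · rintro (⟨v, hv, rfl⟩ | ⟨v, hv, rfl⟩)
    · exact ⟨v, hv, Or.inl rfl⟩
    · exact ⟨v, hv, Or.inr rfl⟩
  · rintro ⟨v, hv, rfl | rfl⟩
    · exact Or.inl ⟨v, hv, rfl⟩
    · exact Or.inr ⟨v, hv, rfl⟩

/-- the lower vertices -/
theorem T_mem0 (D : VD P) {N c : ℤ} (hN : 0 ≤ N) (hc : 0 < c) {x : Fin d → ℤ} (hx : toR x ∈ P) :
    toR (vecCons 0 x) ∈ T P N c := by
  refine (T_int D hN).2 ⟨le_rfl, hc.le, fun a ha => ?_⟩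
  have h := D.nn ha hx
  have e : a.1 ⬝ᵥ x + (1 + N * 0) * a.2 = a.1 ⬝ᵥ x + a.2 := by ring
  rw [e]
  exact h

/-- points on the rays through the vertices -/
theorem T_memt (D : VD P) {N c t : ℤ} (hN : 0 ≤ N) (ht : 0 ≤ t) (htc : t ≤ c) {x : Fin d → ℤ}
    (hx : toR x ∈ P) : toR (vecCons t ((1 + N * t) • x)) ∈ T P N c := by
  refine (T_int D hN).2 ⟨ht, htc, fun a ha => ?_⟩
  have h := D.nn ha hx
  rw [dotProduct_smul, smul_eq_mul, ← mul_add]
  have := mul_nonneg hN ht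
  exact mul_nonneg (by linarith) h

theorem T_hull (D : VD P) {N c : ℤ} (hN : 0 ≤ N) (hc : 0 < c) :
    T P N c = convexHull ℝ (toR '' (TV D N c : Set (Fin (d + 1) → ℤ))) := by
  apply Set.Subset.antisymm
  · rintro z ⟨hz1, hz2, y, hy, hz3⟩
    set Q := convexHull ℝ (toR '' (TV D N c : Set (Fin (d + 1) → ℤ))) with hQ
    have hQc : Convex ℝ Q := convex_convexHull ℝ _
    have hc' : (0 : ℝ) < (c : ℝ) := by exact_mod_cast hc
    have key : ∀ θ : ℝ, 0 ≤ θ → θ ≤ 1 → ∀ x ∈ P,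
        vecCons (θ * (c : ℝ)) ((1 + (N : ℝ) * (θ * (c : ℝ))) • x) ∈ Q := by
      intro θ h0 h1 x hx
      have hconv : Convex ℝ {x : Fin d → ℝ |
          vecCons (θ * (c : ℝ)) ((1 + (N : ℝ) * (θ * (c : ℝ))) • x) ∈ Q} := by
        intro x hx y hy a b ha hb hab
        rw [Set.mem_setOf_eq] at hx hy ⊢
        have h2 := hQc hx hy ha hb hab
        rw [comb_cons] at h2
        have e1 : a * (θ * (c : ℝ)) + b * (θ * (c : ℝ)) = θ * (c : ℝ) := by
          rw [← add_mul, hab, one_mul]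
        have e2 : a • ((1 + (N : ℝ) * (θ * (c : ℝ))) • x) + b • ((1 + (N : ℝ) * (θ * (c : ℝ))) • y) =
            (1 + (N : ℝ) * (θ * (c : ℝ))) • (a • x + b • y) := by
          rw [smul_add, smul_comm a, smul_comm b]
        rw [e1, e2] at h2
        exact h2
      have hsub : toR '' (D.Vt : Set (Fin d → ℤ)) ⊆
          {x : Fin d → ℝ | vecCons (θ * (c : ℝ)) ((1 + (N : ℝ) * (θ * (c : ℝ))) • x) ∈ Q} := by
        rintro _ ⟨v, hv, rfl⟩
        rw [Set.mem_setOf_eq]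
        have g1 : toR (vecCons 0 v) ∈ Q :=
          subset_convexHull ℝ _ ⟨_, mem_TV.2 ⟨v, hv, Or.inl rfl⟩, rfl⟩
        have g2 : toR (vecCons c ((1 + N * c) • v)) ∈ Q :=
          subset_convexHull ℝ _ ⟨_, mem_TV.2 ⟨v, hv, Or.inr rfl⟩, rfl⟩
        have g3 := hQc g1 g2 (sub_nonneg.2 h1) h0 (by ring)
        rw [toR_cons, toR_cons, comb_cons, toR_zsmul] at g3
        have e1 : (1 - θ) * ((0 : ℤ) : ℝ) + θ * (c : ℝ) = θ * (c : ℝ) := by
          push_cast
          ring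
        have e2 : (1 - θ) • toR v + θ • (((1 + N * c : ℤ) : ℝ) • toR v) =
            (1 + (N : ℝ) * (θ * (c : ℝ))) • toR v := by
          rw [smul_smul, ← add_smul]
          congr 1
          push_cast
          ring
        rw [e1, e2] at g3
        exact g3
      have h3 : P ⊆ {x : Fin d → ℝ |
          vecCons (θ * (c : ℝ)) ((1 + (N : ℝ) * (θ * (c : ℝ))) • x) ∈ Q} := by
        rw [D.hull]
        exact convexHull_min hsub hconv
      exact h3 hx
    have h2 := key (z 0 / (c : ℝ)) (div_nonneg hz1 hc'.le) ((div_le_one hc').2 hz2) _ hy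
    rw [div_mul_cancel₀ _ hc'.ne', ← hz3] at h2
    rw [← head_tail z]
    exact h2
  · refine convexHull_min ?_ (convex_of_hrep (T_hrep D hN))
    rintro _ ⟨p, hp, rfl⟩
    obtain ⟨v, hv, rfl | rfl⟩ := mem_TV.1 hp
    · exact T_mem0 D hN hc (D.vmem hv)
    · exact T_memt D hN hc.le le_rfl (D.vmem hv)

theorem T_loc0 (D : VD P) {N c : ℤ} (hN : 0 ≤ N) (hc : 0 < c) {v : Fin d → ℤ} (hv : v ∈ D.Vt) :
    Loc (T P N c) (TA D.A N c) (vecCons 0 v) := by
  refine ⟨vecCons (vecCons 1 (N • v)) (fun i => vecCons 0 (D.E v i)),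
    vecCons (vecCons 1 0) (fun i => vecCons (N * -(D.U v i ⬝ᵥ v)) (D.U v i)), ?_, ?_, ?_, ?_⟩
  · intro i j
    refine Fin.cases ?_ (fun i' => ?_) i <;> refine Fin.cases ?_ (fun j' => ?_) j
    · simp
    · simp [(Fin.succ_ne_zero j').symm]
    · simp only [Matrix.cons_val_zero, Matrix.cons_val_succ]
      rw [if_neg (Fin.succ_ne_zero i'), dot_consZ, dotProduct_smul, smul_eq_mul]
      ring
    · simp only [Matrix.cons_val_succ, dot_consZ, D.dual v hv, Fin.succ_inj]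
      simp
  · intro i
    refine Fin.cases ?_ (fun i' => ?_) i
    · rw [Matrix.cons_val_zero, cons_add]
      have e : v + N • v = (1 + N * (0 + 1)) • v := by
        rw [add_smul, one_smul, zero_add, mul_one]
      rw [e]
      exact T_memt D hN (by norm_num) (by omega) (D.vmem hv)
    · rw [Matrix.cons_val_succ, cons_add, add_zero]
      exact T_mem0 D hN hc (D.mem v hv i')
  · intro i
    refine Fin.cases ?_ (fun i' => ?_) i
    · rw [Matrix.cons_val_zero, dot_consZ, mem_TA]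
      left
      simp
    · rw [Matrix.cons_val_succ, dot_consZ, mem_TA]
      right; right
      exact ⟨_, D.uA v hv i', by simp⟩
  · intro a ha hz
    rcases mem_TA.1 ha with rfl | rfl | ⟨b, hb, rfl⟩
    · exact ⟨0, rfl⟩
    · exfalso
      simp only [dot_consZ] at hz
      rw [zero_dotProduct] at hz
      linarith
    · simp only [dot_consZ] at hz
      obtain ⟨i, hi⟩ := D.tight v hv b hb (by linarith)
      refine ⟨i.succ, ?_⟩
      rw [Matrix.cons_val_succ, hi]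
      have e : -(b.1 ⬝ᵥ v) = b.2 := by linarith
      rw [e]

theorem T_loc1 (D : VD P) {N c : ℤ} (hN : 0 ≤ N) (hc : 0 < c) {v : Fin d → ℤ} (hv : v ∈ D.Vt) :
    Loc (T P N c) (TA D.A N c) (vecCons c ((1 + N * c) • v)) := by
  have hNc : 0 ≤ N * c := mul_nonneg hN hc.le
  refine ⟨vecCons (vecCons (-1) (-(N • v))) (fun i => vecCons 0 (D.E v i)),
    vecCons (vecCons (-1) 0) (fun i => vecCons (N * -(D.U v i ⬝ᵥ v)) (D.U v i)), ?_, ?_, ?_, ?_⟩
  · intro i j
    refine Fin.cases ?_ (fun i' => ?_) i <;> refine Fin.cases ?_ (fun j' => ?_) j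
    · simp
    · simp [(Fin.succ_ne_zero j').symm]
    · simp only [Matrix.cons_val_zero, Matrix.cons_val_succ]
      rw [if_neg (Fin.succ_ne_zero i'), dot_consZ, dotProduct_neg, dotProduct_smul, smul_eq_mul]
      ring
    · simp only [Matrix.cons_val_succ, dot_consZ, D.dual v hv, Fin.succ_inj]
      simp
  · intro i
    refine Fin.cases ?_ (fun i' => ?_) i
    · rw [Matrix.cons_val_zero, cons_add]
      have e : (1 + N * c) • v + -(N • v) = (1 + N * (c + -1)) • v := by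
        rw [← sub_eq_add_neg, ← sub_smul]
        congr 1
        ring
      rw [e]
      exact T_memt D hN (by omega) (by omega) (D.vmem hv)
    · rw [Matrix.cons_val_succ, cons_add, add_zero]
      refine (T_int D hN).2 ⟨hc.le, le_rfl, fun a ha => ?_⟩
      rw [dotProduct_add, dotProduct_smul, smul_eq_mul]
      have h1 := D.nn ha (D.vmem hv)
      have h2 := D.nn ha (D.mem v hv i')
      rw [dotProduct_add] at h2
      have h3 := mul_nonneg hNc h1
      have e : (1 + N * c) * (a.1 ⬝ᵥ v) + a.1 ⬝ᵥ D.E v i' + (1 + N * c) * a.2 =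
          N * c * (a.1 ⬝ᵥ v + a.2) + (a.1 ⬝ᵥ v + a.1 ⬝ᵥ D.E v i' + a.2) := by ring
      rw [e]
      linarith
  · intro i
    refine Fin.cases ?_ (fun i' => ?_) i
    · rw [Matrix.cons_val_zero, dot_consZ, mem_TA]
      right; left
      simp
    · rw [Matrix.cons_val_succ, dot_consZ, mem_TA]
      right; right
      refine ⟨_, D.uA v hv i', Prod.ext rfl ?_⟩
      simp only
      rw [dotProduct_smul, smul_eq_mul]
      ring
  · intro a ha hz
    rcases mem_TA.1 ha with rfl | rfl | ⟨b, hb, rfl⟩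
    · exfalso
      simp only [dot_consZ] at hz
      rw [zero_dotProduct] at hz
      linarith
    · exact ⟨0, rfl⟩
    · simp only [dot_consZ] at hz
      rw [dotProduct_smul, smul_eq_mul] at hz
      have hz' : b.1 ⬝ᵥ v + b.2 = 0 := by
        have e : (1 + N * c) * (b.1 ⬝ᵥ v + b.2) = 0 := by linarith
        rcases mul_eq_zero.1 e with h | h
        · exfalso
          linarith
        · exact h
      obtain ⟨i, hi⟩ := D.tight v hv b hb hz'
      refine ⟨i.succ, ?_⟩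
      rw [Matrix.cons_val_succ, hi]
      have e : -(b.1 ⬝ᵥ v) = b.2 := by linarith
      rw [e]

theorem tcone (D : VD P) {N c : ℤ} (hN : 0 ≤ N) (hc : 0 < c) :
    ∃ D' : VD (T P N c), D'.A = TA D.A N c := by
  refine VD.of_loc (Vt := TV D N c) ?_ (T_hull D hN hc) (T_hrep D hN) ?_ ?_
  · obtain ⟨v, hv⟩ := D.ne
    exact ⟨_, mem_TV.2 ⟨v, hv, Or.inl rfl⟩⟩
  · intro a ha h
    rcases mem_TA.1 ha with rfl | rfl | ⟨b, hb, rfl⟩
    · have := congrFun h 0
      simp at this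
    · have := congrFun h 0
      simp at this
    · apply D.nz b hb
      funext i
      have := congrFun h i.succ
      simpa using this
  · intro p hp
    obtain ⟨v, hv, rfl | rfl⟩ := mem_TV.1 hp
    · exact T_loc0 D hN hc hv
    · exact T_loc1 D hN hc hv

end Pool.Agent.H19.FE
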