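import Pool.Agent.H19.FE.Loc

/-!
# The wedge over a facet

`W P f = {(t, x) : x ∈ P, 0 ≤ t ≤ f x}` for a facet function `f x = f.1 · x + f.2` of `P`.
-/

set_option autoImplicit false
set_option linter.all false

namespace Pool.Agent.H19.FE

open H66OD Matrix

variable {d : ℕ} {P : Set (Fin d → ℝ)}

/-- the wedge -/
def W (P : Set (Fin d → ℝ)) (f : (Fin d → ℤ) × ℤ) : Set (Fin (d + 1) → ℝ) :=
  {z | vecTail z ∈ P ∧ 0 ≤ z 0 ∧ z 0 ≤ toR f.1 ⬝ᵥ vecTail z + (f.2 : ℝ)}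

open Classical in
/-- the inequalities of the wedge -/
noncomputable def WA (A : Finset ((Fin d → ℤ) × ℤ)) (f : (Fin d → ℤ) × ℤ) :
    Finset ((Fin (d + 1) → ℤ) × ℤ) :=
  insert (vecCons 1 0, 0) (insert (vecCons (-1) f.1, f.2)
    ((A.erase f).image (fun a => (vecCons 0 a.1, a.2))))

theorem mem_WA {A : Finset ((Fin d → ℤ) × ℤ)} {f : (Fin d → ℤ) × ℤ}
    {b : (Fin (d + 1) → ℤ) × ℤ} : b ∈ WA A f ↔ b = (vecCons 1 0, 0) ∨ b = (vecCons (-1) f.1, f.2) ∨
      ∃ a ∈ A, a ≠ f ∧ b = (vecCons 0 a.1, a.2) := by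
  classical
  unfold WA
  rw [Finset.mem_insert, Finset.mem_insert, Finset.mem_image]
  refine or_congr Iff.rfl (or_congr Iff.rfl ⟨?_, ?_⟩)
  · rintro ⟨a, ha, rfl⟩
    exact ⟨a, Finset.mem_of_mem_erase ha, Finset.ne_of_mem_erase ha, rfl⟩
  · rintro ⟨a, ha, haf, rfl⟩
    exact ⟨a, Finset.mem_erase.2 ⟨haf, ha⟩, rfl⟩

theorem W_int {f : (Fin d → ℤ) × ℤ} {t : ℤ} {x : Fin d → ℤ} :
    toR (vecCons t x) ∈ W P f ↔ toR x ∈ P ∧ 0 ≤ t ∧ t ≤ f.1 ⬝ᵥ x + f.2 := by
  rw [toR_cons]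
  unfold W
  rw [Set.mem_setOf_eq, tail_cons', Matrix.cons_val_zero, toR_dot]
  refine and_congr Iff.rfl (and_congr ?_ ?_)
  · exact_mod_cast Iff.rfl
  · exact_mod_cast Iff.rfl

theorem W_hrep (D : VD P) {f : (Fin d → ℤ) × ℤ} (hf : f ∈ D.A) (z : Fin (d + 1) → ℝ) :
    z ∈ W P f ↔ ∀ b ∈ WA D.A f, 0 ≤ toR b.1 ⬝ᵥ z + (b.2 : ℝ) := by
  have e : z = vecCons (z 0) (vecTail z) := (head_tail z).symm
  have h1 : toR (vecCons 1 (0 : Fin d → ℤ)) ⬝ᵥ z = z 0 := by
    conv_lhs => rw [e]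
    rw [toR_cons, dot_cons, toR_zero, zero_dotProduct]
    push_cast
    ring
  have h2 : toR (vecCons (-1) f.1) ⬝ᵥ z = -z 0 + toR f.1 ⬝ᵥ vecTail z := by
    conv_lhs => rw [e]
    rw [toR_cons, dot_cons]
    push_cast
    ring
  have h3 : ∀ a : Fin d → ℤ, toR (vecCons 0 a) ⬝ᵥ z = toR a ⬝ᵥ vecTail z := by
    intro a
    conv_lhs => rw [e]
    rw [toR_cons, dot_cons]
    push_cast
    ring
  constructor
  · rintro ⟨hz1, hz2, hz3⟩ b hb
    rcases mem_WA.1 hb with rfl | rfl | ⟨a, ha, haf, rfl⟩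
    · simp only
      rw [h1]
      push_cast
      linarith
    · simp only
      rw [h2]
      linarith
    · simp only
      rw [h3]
      exact (D.hrep _).1 hz1 a ha
  · intro h
    have g1 := h _ (mem_WA.2 (Or.inl rfl))
    have g2 := h _ (mem_WA.2 (Or.inr (Or.inl rfl)))
    simp only at g1 g2
    rw [h1] at g1
    rw [h2] at g2
    push_cast at g1
    refine ⟨(D.hrep _).2 fun a ha => ?_, by linarith, by linarith⟩
    by_cases haf : a = f
    · subst haf
      linarith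
    · have g3 := h _ (mem_WA.2 (Or.inr (Or.inr ⟨a, ha, haf, rfl⟩)))
      simp only at g3
      rw [h3] at g3
      exact g3

theorem W_convex (D : VD P) {f : (Fin d → ℤ) × ℤ} (hf : f ∈ D.A) : Convex ℝ (W P f) := by
  intro x hx y hy a b ha hb hab
  rw [W_hrep D hf] at hx hy ⊢
  intro c hc
  rw [dotProduct_add, dotProduct_smul, dotProduct_smul, smul_eq_mul, smul_eq_mul]
  have e : (c.2 : ℝ) = a * c.2 + b * c.2 := by rw [← add_mul, hab, one_mul]
  rw [e]
  have h1 := mul_nonneg ha (hx c hc)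
  have h2 := mul_nonneg hb (hy c hc)
  linarith

open Classical in
/-- the vertices of the wedge -/
noncomputable def WV (D : VD P) (f : (Fin d → ℤ) × ℤ) : Finset (Fin (d + 1) → ℤ) :=
  D.Vt.image (fun v => vecCons 0 v) ∪ D.Vt.image (fun v => vecCons (f.1 ⬝ᵥ v + f.2) v)

theorem mem_WV {D : VD P} {f : (Fin d → ℤ) × ℤ} {p : Fin (d + 1) → ℤ} :
    p ∈ WV D f ↔ ∃ v ∈ D.Vt, p = vecCons 0 v ∨ p = vecCons (f.1 ⬝ᵥ v + f.2) v := by
  classical
  unfold WV
  rw [Finset.mem_union, Finset.mem_image, Finset.mem_image]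
  constructor
  · rintro (⟨v, hv, rfl⟩ | ⟨v, hv, rfl⟩)
    · exact ⟨v, hv, Or.inl rfl⟩
    · exact ⟨v, hv, Or.inr rfl⟩
  · rintro ⟨v, hv, rfl | rfl⟩
    · exact Or.inl ⟨v, hv, rfl⟩
    · exact Or.inr ⟨v, hv, rfl⟩

theorem W_hull (D : VD P) {f : (Fin d → ℤ) × ℤ} (hf : f ∈ D.A) :
    W P f = convexHull ℝ (toR '' (WV D f : Set (Fin (d + 1) → ℤ))) := by
  apply Set.Subset.antisymm
  · rintro z ⟨hz1, hz2, hz3⟩
    set Q := convexHull ℝ (toR '' (WV D f : Set (Fin (d + 1) → ℤ))) with hQ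
    have hQc : Convex ℝ Q := convex_convexHull ℝ _
    have key : ∀ θ : ℝ, 0 ≤ θ → θ ≤ 1 → ∀ x ∈ P,
        vecCons (θ * (toR f.1 ⬝ᵥ x + (f.2 : ℝ))) x ∈ Q := by
      intro θ h0 h1 x hx
      have hconv : Convex ℝ {x : Fin d → ℝ | vecCons (θ * (toR f.1 ⬝ᵥ x + (f.2 : ℝ))) x ∈ Q} := by
        intro x hx y hy a b ha hb hab
        rw [Set.mem_setOf_eq] at hx hy ⊢
        have h2 := hQc hx hy ha hb hab
        rw [comb_cons] at h2
        have e : θ * (toR f.1 ⬝ᵥ (a • x + b • y) + (f.2 : ℝ)) =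
            a * (θ * (toR f.1 ⬝ᵥ x + (f.2 : ℝ))) + b * (θ * (toR f.1 ⬝ᵥ y + (f.2 : ℝ))) := by
          rw [dotProduct_add, dotProduct_smul, dotProduct_smul, smul_eq_mul, smul_eq_mul]
          have e' : (f.2 : ℝ) = a * f.2 + b * f.2 := by rw [← add_mul, hab, one_mul]
          conv_lhs => rw [e']
          ring
        rw [e]
        exact h2
      have hsub : toR '' (D.Vt : Set (Fin d → ℤ)) ⊆
          {x : Fin d → ℝ | vecCons (θ * (toR f.1 ⬝ᵥ x + (f.2 : ℝ))) x ∈ Q} := by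
        rintro _ ⟨v, hv, rfl⟩
        rw [Set.mem_setOf_eq]
        have g1 : toR (vecCons 0 v) ∈ Q :=
          subset_convexHull ℝ _ ⟨_, mem_WV.2 ⟨v, hv, Or.inl rfl⟩, rfl⟩
        have g2 : toR (vecCons (f.1 ⬝ᵥ v + f.2) v) ∈ Q :=
          subset_convexHull ℝ _ ⟨_, mem_WV.2 ⟨v, hv, Or.inr rfl⟩, rfl⟩
        have g3 := hQc g1 g2 (sub_nonneg.2 h1) h0 (by ring)
        rw [toR_cons, toR_cons, comb_cons] at g3
        have e1 : (1 - θ) * ((0 : ℤ) : ℝ) + θ * ((f.1 ⬝ᵥ v + f.2 : ℤ) : ℝ) =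
            θ * (toR f.1 ⬝ᵥ toR v + (f.2 : ℝ)) := by
          rw [toR_dot]
          push_cast
          ring
        have e2 : (1 - θ) • toR v + θ • toR v = toR v := by
          rw [← add_smul]
          simp
        rw [e1, e2] at g3
        exact g3
      have h3 : P ⊆ {x : Fin d → ℝ | vecCons (θ * (toR f.1 ⬝ᵥ x + (f.2 : ℝ))) x ∈ Q} := by
        rw [D.hull]
        exact convexHull_min hsub hconv
      exact h3 hx
    have hfx : 0 ≤ toR f.1 ⬝ᵥ vecTail z + (f.2 : ℝ) := (D.hrep _).1 hz1 f hf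
    rcases hfx.eq_or_lt with h0 | h0
    · have h1 : z 0 = 0 := le_antisymm (by linarith) hz2
      have h2 := key 0 le_rfl zero_le_one _ hz1
      rw [zero_mul] at h2
      rw [← head_tail z, h1]
      exact h2
    · have h2 := key (z 0 / (toR f.1 ⬝ᵥ vecTail z + (f.2 : ℝ))) (div_nonneg hz2 hfx)
        ((div_le_one h0).2 hz3) _ hz1
      rw [div_mul_cancel₀ _ h0.ne'] at h2
      rw [← head_tail z]
      exact h2
  · refine convexHull_min ?_ (W_convex D hf)
    rintro _ ⟨p, hp, rfl⟩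
    obtain ⟨v, hv, rfl | rfl⟩ := mem_WV.1 hp
    · exact W_int.2 ⟨D.vmem hv, le_rfl, D.nn hf (D.vmem hv)⟩
    · exact W_int.2 ⟨D.vmem hv, D.nn hf (D.vmem hv), le_rfl⟩

theorem pair_ne {D : VD P} {f : (Fin d → ℤ) × ℤ} {v : Fin d → ℤ}
    (h0 : f.1 ⬝ᵥ v + f.2 ≠ 0) (i : Fin d) : (D.U v i, -(D.U v i ⬝ᵥ v)) ≠ f := by
  rintro rfl
  apply h0
  simp

/-- the local data at the lower vertices outside the facet -/
theorem W_locA (D : VD P) {f : (Fin d → ℤ) × ℤ} (hf : f ∈ D.A) {v : Fin d → ℤ} (hv : v ∈ D.Vt)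
    (h0 : f.1 ⬝ᵥ v + f.2 ≠ 0) : Loc (W P f) (WA D.A f) (vecCons 0 v) := by
  have hnn := D.nn hf (D.vmem hv)
  refine ⟨vecCons (vecCons 1 0) (fun i => vecCons 0 (D.E v i)),
    vecCons (vecCons 1 0) (fun i => vecCons 0 (D.U v i)), ?_, ?_, ?_, ?_⟩
  · intro i j
    refine Fin.cases ?_ (fun i' => ?_) i <;> refine Fin.cases ?_ (fun j' => ?_) j
    · simp
    · simp [(Fin.succ_ne_zero j').symm]
    · simp
    · simp only [Matrix.cons_val_succ, dot_consZ, D.dual v hv, Fin.succ_inj]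
      simp
  · intro i
    refine Fin.cases ?_ (fun i' => ?_) i
    · rw [Matrix.cons_val_zero, cons_add, W_int]
      rw [add_zero]
      exact ⟨D.vmem hv, by omega, by omega⟩
    · rw [Matrix.cons_val_succ, cons_add, W_int]
      exact ⟨D.mem v hv i', by omega, by rw [add_zero]; exact D.nn hf (D.mem v hv i')⟩
  · intro i
    refine Fin.cases ?_ (fun i' => ?_) i
    · rw [Matrix.cons_val_zero, dot_consZ, mem_WA]
      left
      simp
    · rw [Matrix.cons_val_succ, dot_consZ, mem_WA]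
      right; right
      exact ⟨_, D.uA v hv i', pair_ne h0 i', by simp⟩
  · intro a ha hz
    rcases mem_WA.1 ha with rfl | rfl | ⟨b, hb, hbf, rfl⟩
    · exact ⟨0, rfl⟩
    · exfalso
      simp only [dot_consZ] at hz
      apply h0
      linarith
    · simp only [dot_consZ] at hz
      obtain ⟨i, hi⟩ := D.tight v hv b hb (by linarith)
      exact ⟨i.succ, by rw [Matrix.cons_val_succ, hi]⟩

/-- the local data at the upper vertices outside the facet -/
theorem W_locB (D : VD P) {f : (Fin d → ℤ) × ℤ} (hf : f ∈ D.A) {v : Fin d → ℤ} (hv : v ∈ D.Vt)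
    (h0 : f.1 ⬝ᵥ v + f.2 ≠ 0) : Loc (W P f) (WA D.A f) (vecCons (f.1 ⬝ᵥ v + f.2) v) := by
  have hnn := D.nn hf (D.vmem hv)
  refine ⟨vecCons (vecCons (-1) 0) (fun i => vecCons (f.1 ⬝ᵥ D.E v i) (D.E v i)),
    vecCons (vecCons (-1) f.1) (fun i => vecCons 0 (D.U v i)), ?_, ?_, ?_, ?_⟩
  · intro i j
    refine Fin.cases ?_ (fun i' => ?_) i <;> refine Fin.cases ?_ (fun j' => ?_) j
    · simp
    · simp only [Matrix.cons_val_zero, Matrix.cons_val_succ, dot_consZ]
      rw [if_neg (Fin.succ_ne_zero j').symm]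
      ring
    · simp
    · simp only [Matrix.cons_val_succ, dot_consZ, D.dual v hv, Fin.succ_inj]
      simp
  · intro i
    refine Fin.cases ?_ (fun i' => ?_) i
    · rw [Matrix.cons_val_zero, cons_add, W_int]
      rw [add_zero]
      exact ⟨D.vmem hv, by omega, by omega⟩
    · rw [Matrix.cons_val_succ, cons_add, W_int]
      have h1 := D.nn hf (D.mem v hv i')
      have h2 : f.1 ⬝ᵥ (v + D.E v i') = f.1 ⬝ᵥ v + f.1 ⬝ᵥ D.E v i' := dotProduct_add _ _ _
      exact ⟨D.mem v hv i', by omega, by omega⟩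
  · intro i
    refine Fin.cases ?_ (fun i' => ?_) i
    · rw [Matrix.cons_val_zero, dot_consZ, mem_WA]
      right; left
      congr 1
      ring
    · rw [Matrix.cons_val_succ, dot_consZ, mem_WA]
      right; right
      exact ⟨_, D.uA v hv i', pair_ne h0 i', by simp⟩
  · intro a ha hz
    rcases mem_WA.1 ha with rfl | rfl | ⟨b, hb, hbf, rfl⟩
    · exfalso
      simp only [dot_consZ] at hz
      apply h0
      simp at hz
      linarith
    · exact ⟨0, rfl⟩
    · simp only [dot_consZ] at hz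
      obtain ⟨i, hi⟩ := D.tight v hv b hb (by linarith)
      exact ⟨i.succ, by rw [Matrix.cons_val_succ, hi]⟩

/-- the local data at the vertices on the facet -/
theorem W_locC (D : VD P) {f : (Fin d → ℤ) × ℤ} (hf : f ∈ D.A) {v : Fin d → ℤ} (hv : v ∈ D.Vt)
    (h0 : f.1 ⬝ᵥ v + f.2 = 0) : Loc (W P f) (WA D.A f) (vecCons 0 v) := by
  obtain ⟨i0, hi0⟩ := D.tight v hv f hf h0
  have hfE : ∀ j, f.1 ⬝ᵥ D.E v j = if i0 = j then 1 else 0 := fun j => by
    rw [← hi0, D.dual v hv]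
  refine ⟨vecCons (vecCons 1 (D.E v i0)) (fun i => vecCons 0 (D.E v i)),
    vecCons (vecCons 1 0) (fun i => if i = i0 then vecCons (-1) f.1 else vecCons 0 (D.U v i)),
    ?_, ?_, ?_, ?_⟩
  · intro i j
    refine Fin.cases ?_ (fun i' => ?_) i <;> refine Fin.cases ?_ (fun j' => ?_) j
    · simp
    · simp [(Fin.succ_ne_zero j').symm]
    · simp only [Matrix.cons_val_zero, Matrix.cons_val_succ]
      rw [if_neg (Fin.succ_ne_zero i')]
      by_cases hi : i' = i0
      · rw [if_pos hi, dot_consZ, hfE, if_pos rfl]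
        ring
      · rw [if_neg hi, dot_consZ, D.dual v hv, if_neg hi]
        ring
    · simp only [Matrix.cons_val_succ, Fin.succ_inj]
      by_cases hi : i' = i0
      · rw [if_pos hi, dot_consZ, hfE, hi]
        simp
      · rw [if_neg hi, dot_consZ, D.dual v hv]
        simp
  · intro i
    refine Fin.cases ?_ (fun i' => ?_) i
    · rw [Matrix.cons_val_zero, cons_add, W_int]
      have h2 : f.1 ⬝ᵥ (v + D.E v i0) = f.1 ⬝ᵥ v + f.1 ⬝ᵥ D.E v i0 := dotProduct_add _ _ _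
      rw [hfE, if_pos rfl] at h2
      exact ⟨D.mem v hv i0, by omega, by omega⟩
    · rw [Matrix.cons_val_succ, cons_add, W_int]
      exact ⟨D.mem v hv i', by omega, by rw [add_zero]; exact D.nn hf (D.mem v hv i')⟩
  · intro i
    refine Fin.cases ?_ (fun i' => ?_) i
    · rw [Matrix.cons_val_zero, dot_consZ, mem_WA]
      left
      simp
    · rw [Matrix.cons_val_succ]
      by_cases hi : i' = i0
      · rw [if_pos hi, dot_consZ, mem_WA]
        right; left
        congr 1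
        linarith
      · rw [if_neg hi, dot_consZ, mem_WA]
        right; right
        refine ⟨_, D.uA v hv i', ?_, by simp⟩
        intro h
        have h1 : D.U v i' = D.U v i0 := by rw [hi0, ← h]
        have h2 := D.dual v hv i' i'
        rw [h1, D.dual v hv, if_neg (Ne.symm hi), if_pos rfl] at h2
        exact absurd h2 (by norm_num)
  · intro a ha hz
    rcases mem_WA.1 ha with rfl | rfl | ⟨b, hb, hbf, rfl⟩
    · exact ⟨0, rfl⟩
    · exact ⟨i0.succ, by rw [Matrix.cons_val_succ, if_pos rfl]⟩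
    · simp only [dot_consZ] at hz
      have hz' : b.1 ⬝ᵥ v + b.2 = 0 := by linarith
      obtain ⟨i, hi⟩ := D.tight v hv b hb hz'
      refine ⟨i.succ, ?_⟩
      rw [Matrix.cons_val_succ, if_neg, hi]
      rintro rfl
      apply hbf
      refine Prod.ext (by rw [← hi, hi0]) ?_
      rw [← hi, hi0] at hz'
      linarith

theorem wedge (D : VD P) {f : (Fin d → ℤ) × ℤ} (hf : f ∈ D.A) :
    ∃ D' : VD (W P f), D'.A = WA D.A f := by
  refine VD.of_loc (Vt := WV D f) ?_ (W_hull D hf) (W_hrep D hf) ?_ ?_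
  · obtain ⟨v, hv⟩ := D.ne
    exact ⟨_, mem_WV.2 ⟨v, hv, Or.inl rfl⟩⟩
  · intro a ha h
    rcases mem_WA.1 ha with rfl | rfl | ⟨b, hb, hbf, rfl⟩
    · have := congrFun h 0
      simp at this
    · have := congrFun h 0
      simp at this
    · apply D.nz b hb
      funext i
      have := congrFun h i.succ
      simpa using this
  · intro p hp
    obtain ⟨v, hv, rfl | rfl⟩ := mem_WV.1 hp
    · by_cases h0 : f.1 ⬝ᵥ v + f.2 = 0
      · exact W_locC D hf hv h0
      · exact W_locA D hf hv h0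
    · by_cases h0 : f.1 ⬝ᵥ v + f.2 = 0
      · rw [h0]
        exact W_locC D hf hv h0
      · exact W_locB D hf hv h0

end Pool.Agent.H19.FE
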